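import Pool.Agent.Lib_MP_aeefb1_pn.PDefs
import Pool.Agent.Lib_MP_aeefb1_reg.Newton

/-!
MP_aeefb1_nt, `p = l`: the final contradiction, pure algebra over `ZMod l`.
-/

open Finset PowerSeries

namespace AER

variable {l : ℕ} [hlp : Fact l.Prime]

/-- `s` odd.
Proof.  `W = v E1^2` has exact order `l - s`.  `(Eq j)⁻¹ = j⁻¹ rescale j Bs`;
`Kc = (1 + Ex) Bs = 2 Bs + X` (`X_mul_E1`), so `κ_0 = 2`, `κ_i = coeff i Kc = 2 coeff i Bs` for
`2 ≤ i`.  `0 = coeff (l-1) (L j) = ∑_i coeff (l-1-i) W κ_i j^(i-1)`, `0 ≤ i ≤ s - 1` (beyond,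
`W` has no coefficient), for all `j ≠ 0`.  Multiply by `j^(2-s) = j^(l+1-s)` and sum over
`j ≠ 0` (`sum_pow_nonzero`): the exponents `i + 1 - s` lie in `[1-s, 0]` and `s - 1 < l - 1`, so
only `i = s - 1` remains: `coeff (l-s) W κ_(s-1) = 0`.  But `κ_(s-1) ≠ 0` by
`coeff_Bs_ne_zero`, `s - 1` even, `2 ≤ s - 1 ≤ l - 3`. -/
theorem end_C_contra (h5 : 5 ≤ l)
    (hB : ∀ k : ℕ, 1 ≤ k → 2 * k ≤ l - 3 → ¬ (l : ℤ) ∣ (bernoulli (2 * k)).num)
    {s : ℕ} (hs3 : 3 ≤ s) (hsl : s + 2 ≤ l) (hodd : Odd s) (v : PowerSeries (ZMod l))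
    (hv : X ^ (l - s) ∣ v) (hv' : ¬ X ^ (l - s + 1) ∣ v) (L : ZMod l → PowerSeries (ZMod l))
    (hL : ∀ j, j ≠ 0 → X ^ l ∣ L j * Eq l j - v * E1 l ^ 2 * (1 + rescale j (Ex l)))
    (h0 : ∀ j, j ≠ 0 → coeff (l - 1) (L j) = 0) : False := by
  classical
  have hl2 : (2 : ZMod l) ≠ 0 := by
    have := natCast_ne_zero' l (n := 2) (by norm_num) (by omega)
    exact_mod_cast this
  set W : PowerSeries (ZMod l) := v * E1 l ^ 2 with hW
  -- the series `(1 + Ex) Bs = 2 Bs + X`
  have hK : (1 + Ex l) * Bs l = 2 * Bs l + X := by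
    have h1 := X_mul_E1 l
    have h2 := Bs_mul_E1 l
    linear_combination (-(Bs l)) * h1 + X * h2
  have hccE1 : constantCoeff (E1 l) = 1 := by
    rw [← coeff_zero_eq_constantCoeff_apply]
    simp [E1]
  -- order of `W`
  have hWlow : ∀ m, m < l - s → coeff m W = 0 := by
    intro m hm
    have h1 : (X : PowerSeries (ZMod l)) ^ (l - s) ∣ W := Dvd.dvd.mul_right hv _
    exact (X_pow_dvd_iff.1 h1) m hm
  have hvtop : coeff (l - s) v ≠ 0 := by
    intro h0
    apply hv'
    rw [X_pow_dvd_iff]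
    intro m hm
    rcases Nat.lt_succ_iff_lt_or_eq.1 hm with h | h
    · exact (X_pow_dvd_iff.1 hv) m h
    · rw [h]
      exact h0
  have hWtop : coeff (l - s) W ≠ 0 := by
    obtain ⟨u, hu⟩ := hv
    have h1 : coeff (l - s) v = constantCoeff u := by
      rw [hu, ← coeff_zero_eq_constantCoeff_apply]
      have := coeff_X_pow_mul u (l - s) 0
      rwa [zero_add] at this
    have h2 : coeff (l - s) W = constantCoeff u := by
      rw [hW, hu, mul_assoc]
      have := coeff_X_pow_mul (u * E1 l ^ 2) (l - s) 0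
      rw [zero_add] at this
      rw [this, coeff_zero_eq_constantCoeff_apply, map_mul, map_pow, hccE1]
      ring
    rw [h2, ← h1]
    exact hvtop
  -- the coefficient of index `l - 1` of `L j`
  have hcoef : ∀ j : ZMod l, j ≠ 0 →
      coeff (l - 1) (W * rescale j (2 * Bs l + X)) = 0 := by
    intro j hj
    have h1 : (X : PowerSeries (ZMod l)) ^ l ∣ L j * C j - W * rescale j (2 * Bs l + X) * C (1 : ZMod l) := by
      have h2 := (hL j hj).mul_right (rescale j (Bs l))
      have h3 : rescale j (Bs l) * rescale j (E1 l) = 1 := by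
        rw [← map_mul, Bs_mul_E1, map_one]
      have h4 : rescale j (2 * Bs l + X) = (1 + rescale j (Ex l)) * rescale j (Bs l) := by
        rw [← hK, map_mul, map_add, map_one]
      have h5 : L j * C j - W * rescale j (2 * Bs l + X) * C (1 : ZMod l)
          = (L j * Eq l j - v * E1 l ^ 2 * (1 + rescale j (Ex l))) * rescale j (Bs l) := by
        rw [h4, map_one]
        unfold Eq
        linear_combination (-(L j * C j)) * h3
      rw [h5]
      exact h2
    have h6 := coeff_eq_of_cg (m := l - 1) (by omega) h1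
    rw [map_one, mul_one, mul_comm (L j) (C j), coeff_C_mul, h0 j hj, mul_zero] at h6
    exact h6.symm
  -- as a polynomial in `j`
  set κ : ℕ → ZMod l := fun i => coeff i (2 * Bs l + X) with hκ
  have hpoly : ∀ j : ZMod l, j ≠ 0 →
      ∑ i ∈ range s, coeff (l - 1 - i) W * κ i * j ^ i = 0 := by
    intro j hj
    have h1 := hcoef j hj
    rw [mul_comm W, coeff_mul, Finset.Nat.sum_antidiagonal_eq_sum_range_succ_mk] at h1
    rw [← h1]
    rw [show (l - 1).succ = s + (l - s) by omega, Finset.sum_range_add]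
    have h2 : ∑ x ∈ range (l - s), (fun k => coeff (k) (rescale j (2 * Bs l + X)) *
        coeff (l - 1 - k) W) (s + x) = 0 := by
      apply Finset.sum_eq_zero
      intro x hx
      rw [Finset.mem_range] at hx
      show coeff (s + x) (rescale j (2 * Bs l + X)) * coeff (l - 1 - (s + x)) W = 0
      rw [hWlow _ (by omega), mul_zero]
    have h3 : ∑ x ∈ range s, (fun k => coeff (k) (rescale j (2 * Bs l + X)) *
        coeff (l - 1 - k) W) x = ∑ i ∈ range s, coeff (l - 1 - i) W * κ i * j ^ i := by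
      apply Finset.sum_congr rfl
      intro i _
      show coeff i (rescale j (2 * Bs l + X)) * coeff (l - 1 - i) W = _
      rw [coeff_rescale]
      simp only [hκ]
      ring
    rw [← h3]
    exact (add_eq_left.2 h2).symm
  -- the polynomial vanishes
  set P : Polynomial (ZMod l) := ∑ i ∈ range s, Polynomial.C (coeff (l - 1 - i) W * κ i) *
    Polynomial.X ^ i with hP
  have hPdeg : P.natDegree < (Finset.univ.erase (0 : ZMod l)).card := by
    rw [Finset.card_erase_of_mem (Finset.mem_univ _), Finset.card_univ, ZMod.card]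
    have h1 : P.natDegree ≤ s - 1 := by
      apply Polynomial.natDegree_sum_le_of_forall_le
      intro i hi
      rw [Finset.mem_range] at hi
      exact (Polynomial.natDegree_C_mul_X_pow_le _ _).trans (by omega)
    omega
  have hP0 : P = 0 := by
    apply Polynomial.eq_zero_of_natDegree_lt_card_of_eval_eq_zero' P
      (Finset.univ.erase (0 : ZMod l)) _ hPdeg
    intro j hj
    rw [hP, Polynomial.eval_finsetSum, ← hpoly j (Finset.ne_of_mem_erase hj)]
    apply Finset.sum_congr rfl
    intro i _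
    simp
  have hcoefP : P.coeff (s - 1) = coeff (l - 1 - (s - 1)) W * κ (s - 1) := by
    rw [hP, Polynomial.finsetSum_coeff, Finset.sum_eq_single (s - 1)]
    · rw [Polynomial.coeff_C_mul, Polynomial.coeff_X_pow, if_pos rfl, mul_one]
    · intro i _ hi
      rw [Polynomial.coeff_C_mul, Polynomial.coeff_X_pow, if_neg (Ne.symm hi), mul_zero]
    · intro h
      exact absurd (Finset.mem_range.2 (by omega)) h
  rw [hP0, Polynomial.coeff_zero, show l - 1 - (s - 1) = l - s by omega] at hcoefP
  rcases mul_eq_zero.1 hcoefP.symm with h | h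
  · exact hWtop h
  · obtain ⟨k, hk⟩ := hodd
    have h1 : κ (s - 1) = 2 * coeff (s - 1) (Bs l) := by
      simp only [hκ]
      rw [map_add, coeff_X, if_neg (by omega), add_zero,
        show (2 : PowerSeries (ZMod l)) = C (2 : ZMod l) by rw [map_ofNat], coeff_C_mul]
    rw [h1, show s - 1 = 2 * k by omega] at h
    exact mul_ne_zero hl2 (coeff_Bs_ne_zero l (by omega) (hB k (by omega) (by omega))) h

end AER
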