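import Pool.Agent.Lib_MP_aeefb1_pn.PDefs
import Pool.Agent.Lib_MP_aeefb1_reg.Newton

/-!
MP_aeefb1_nt, `p = l`: Lagrange inversion for `exp` modulo `l`, and the consequence of the norm
condition.
-/

open Finset PowerSeries

namespace AER

variable {l : ℕ} [hlp : Fact l.Prime]

private theorem PLag_der_Ex : (X : PowerSeries (ZMod l)) ^ (l - 1) ∣
    derivative (ZMod l) (Ex l) - Ex l := by
  rw [cg_iff]
  intro m hm
  rw [coeff_derivative, coeff_Ex, coeff_Ex, Nat.factorial_succ]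
  have h1 : ((m + 1 : ℕ) : ZMod l) ≠ 0 := natCast_ne_zero' l (by omega) (by omega)
  have h2 := factorial_ne_zero l (n := m) (by omega)
  push_cast at h1 ⊢
  field_simp

private theorem PLag_XdE : X * derivative (ZMod l) (E1 l) = derivative (ZMod l) (Ex l) - E1 l := by
  have h3 := congrArg (derivative (ZMod l)) (X_mul_E1 l)
  rw [Derivation.leibniz, map_sub, Derivation.map_one_eq_zero, sub_zero, smul_eq_mul, smul_eq_mul,
    derivative_X] at h3
  linear_combination h3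

private theorem PLag_dBs :
    derivative (ZMod l) (Bs l) = - (Bs l ^ 2 * derivative (ZMod l) (E1 l)) := by
  have h3 := congrArg (derivative (ZMod l)) (Bs_mul_E1 l)
  rw [Derivation.leibniz, Derivation.map_one_eq_zero, smul_eq_mul, smul_eq_mul] at h3
  have h4 := Bs_mul_E1 l
  linear_combination (Bs l) * h3 - derivative (ZMod l) (Bs l) * h4

private theorem PLag_step {m : ℕ} (hm : m + 2 < l) :
    coeff (m + 1) (Bs l ^ (m + 2)) = - coeff m (Bs l ^ (m + 1)) := by
  have h0 : ((m + 1 : ℕ) : ZMod l) ≠ 0 := natCast_ne_zero' l (by omega) (by omega)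
  have h1 : X * derivative (ZMod l) (Bs l ^ (m + 1)) + C ((m + 1 : ℕ) : ZMod l) *
      (Bs l ^ (m + 2) + X * Bs l ^ (m + 1) - Bs l ^ (m + 1))
      = - (C ((m + 1 : ℕ) : ZMod l) * Bs l ^ (m + 2)) * (derivative (ZMod l) (Ex l) - Ex l) := by
    rw [Derivation.leibniz_pow, Nat.add_sub_cancel, smul_eq_mul, nsmul_eq_mul, PLag_dBs]
    have e1 := PLag_XdE (l := l)
    have e2 := X_mul_E1 l
    have e3 := Bs_mul_E1 l
    have e4 : (C ((m + 1 : ℕ) : ZMod l) : PowerSeries (ZMod l)) = ((m + 1 : ℕ) : PowerSeries (ZMod l)) := by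
      rw [map_natCast]
    rw [e4]
    linear_combination (- ((m + 1 : ℕ) : PowerSeries (ZMod l)) * Bs l ^ (m + 2)) * e1
      + ((m + 1 : ℕ) : PowerSeries (ZMod l)) * Bs l ^ (m + 2) * e2
      + ((m + 1 : ℕ) : PowerSeries (ZMod l)) * Bs l ^ (m + 1) * (1 - X) * e3
  have h2 : (X : PowerSeries (ZMod l)) ^ (l - 1) ∣
      X * derivative (ZMod l) (Bs l ^ (m + 1)) + C ((m + 1 : ℕ) : ZMod l) *
      (Bs l ^ (m + 2) + X * Bs l ^ (m + 1) - Bs l ^ (m + 1)) := by
    rw [h1]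
    exact (PLag_der_Ex (l := l)).mul_left _
  have h3 := (X_pow_dvd_iff.1 h2) (m + 1) (by omega)
  rw [map_add, coeff_succ_X_mul, coeff_derivative, coeff_C_mul, map_sub, map_add,
    coeff_succ_X_mul] at h3
  have h4 : ((m + 1 : ℕ) : ZMod l) * (coeff (m + 1) (Bs l ^ (m + 2)) + coeff m (Bs l ^ (m + 1)))
      = 0 := by
    push_cast at h3 ⊢
    linear_combination h3
  have h5 := (mul_eq_zero.1 h4).resolve_left h0
  linear_combination h5

/-- `[X^(k-1)] (X/(exp X - 1))^k = (-1)^(k-1)`, `1 ≤ k ≤ l - 1`.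
Proof.  `X E1' = Ex' - E1`, `Ex' = Ex = 1 + X E1` modulo `X^(l-1)`.  So modulo `X^(l-1)`
`X (Bs^(k-1))' = (1 - k) Bs^k (1 + X E1 - E1) = (1 - k) (Bs^k + X Bs^(k-1) - Bs^(k-1))`.
Coefficient of `X^(k-1)`: `(k - 1) a = (1 - k) (D_k + D_(k-1) - a)` with
`D_k = coeff (k-1) (Bs^k)`, `a = coeff (k-1) (Bs^(k-1))`, so `D_k = - D_(k-1)` for
`2 ≤ k ≤ l - 1`. -/
theorem lag_one {k : ℕ} (h1 : 1 ≤ k) (hk : k < l) :
    coeff (k - 1) (Bs l ^ k) = (-1 : ZMod l) ^ (k - 1) := by
  obtain ⟨m, rfl⟩ : ∃ m, k = m + 1 := ⟨k - 1, by omega⟩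
  rw [Nat.add_sub_cancel]
  induction m with
  | zero =>
    have h := congrArg (coeff 0) (Bs_mul_E1 l)
    have h2 : constantCoeff (E1 l) = 1 := by
      rw [← coeff_zero_eq_constantCoeff_apply]
      simp [E1]
    rw [coeff_zero_eq_constantCoeff_apply, map_mul, h2, mul_one, coeff_zero_one] at h
    rw [zero_add, pow_one, coeff_zero_eq_constantCoeff_apply, h, pow_zero]
  | succ m ih =>
    rw [PLag_step (by omega), ih (by omega) (by omega), pow_succ]
    ring

/-- Multiply `NormCond` by `t` and sum over `t ≠ 0`.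
Proof.  `(Eq t)⁻¹ = t⁻¹ rescale t Bs`, so
`coeff (l-1) ((r (Eq t)⁻¹ E1)^k) = ∑_i t^(i-k) coeff i (Bs^k) coeff (l-1-i) ((E1 r)^k)`.
`∑_{t ≠ 0} t^(i-k+1)` is `-1` if `l - 1 ∣ i - k + 1` and `0` otherwise
(`sum_pow_nonzero` in Lib_MP_aeefb1_reg/Newton.lean), `0 ≤ i ≤ l - 1`, `1 ≤ k ≤ l - 1`: only
`i = k - 1`, or `i = l - 1`, `k = 1` where the last factor is `coeff 0 (E1 r) = 0`.  The right
side gives `∑ t = 0`.  With `lag_one`: `∑_k k⁻¹ coeff (l-k) ((E1 r)^k) = 0`, which is the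
claim. -/
theorem end_C (h5 : 5 ≤ l) {r : PowerSeries (ZMod l)} (hr : X ∣ r) (h : NormCond l r) :
    coeff (l - 1) (LamS l r) = 0 := by
  classical
  obtain ⟨e, he⟩ := h
  -- the coefficient for one `t`
  have hcc : constantCoeff (E1 l) = 1 := by
    rw [← coeff_zero_eq_constantCoeff_apply]
    simp [E1]
  have hinv : ∀ t : ZMod l, t ≠ 0 → (Eq l t)⁻¹ = C t⁻¹ * rescale t (Bs l) := by
    intro t ht
    symm
    rw [PowerSeries.eq_inv_iff_mul_eq_one (by rw [Eq_constantCoeff]; exact ht), Eq]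
    have h1 : rescale t (Bs l) * rescale t (E1 l) = 1 := by
      rw [← map_mul, Bs_mul_E1, map_one]
    have h2 : (C t⁻¹ : PowerSeries (ZMod l)) * C t = 1 := by
      rw [← map_mul, inv_mul_cancel₀ ht, map_one]
    linear_combination (C t⁻¹ * C t) * h1 + h2
  have hone : ∀ t : ZMod l, t ≠ 0 → ∀ k ∈ Ico 1 l,
      t * coeff (l - 1) ((r * (Eq l t)⁻¹ * E1 l) ^ k) =
      ∑ i ∈ range l, coeff i (Bs l ^ k) * coeff (l - 1 - i) ((E1 l * r) ^ k) * t ^ (l - k + i) := by
    intro t ht k hk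
    rw [mem_Ico] at hk
    have e1 : (r * (Eq l t)⁻¹ * E1 l) ^ k
        = C (t⁻¹ ^ k) * (rescale t (Bs l ^ k) * (E1 l * r) ^ k) := by
      rw [hinv t ht, map_pow, map_pow]
      ring
    rw [e1, coeff_C_mul, coeff_mul, Finset.Nat.sum_antidiagonal_eq_sum_range_succ_mk,
      show (l - 1).succ = l by omega, Finset.mul_sum, Finset.mul_sum]
    refine sum_congr rfl fun i hi => ?_
    rw [coeff_rescale]
    have h3 : t * t⁻¹ ^ k * t ^ i = t ^ (l - k + i) := by
      have h4 : t ^ (l - 1) = 1 := ZMod.pow_card_sub_one_eq_one ht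
      have h5 : t⁻¹ ^ k * t ^ k = 1 := by rw [← mul_pow, inv_mul_cancel₀ ht, one_pow]
      have h6 : t ^ (l - k + i) = t * t ^ (l - 1 - k) * t ^ i := by
        rw [← pow_succ', ← pow_add]
        congr 1
        omega
      have h7 : t ^ (l - 1) = t ^ (l - 1 - k) * t ^ k := by
        rw [← pow_add]
        congr 1
        omega
      rw [h6]
      have h8 : t⁻¹ ^ k = t ^ (l - 1 - k) := by
        calc t⁻¹ ^ k = t⁻¹ ^ k * (t ^ (l - 1 - k) * t ^ k) := by rw [← h7, h4, mul_one]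
          _ = (t⁻¹ ^ k * t ^ k) * t ^ (l - 1 - k) := by ring
          _ = t ^ (l - 1 - k) := by rw [h5, one_mul]
      rw [h8]
    rw [← h3]
    ring
  -- sum over `t`
  have hsum : ∑ t ∈ univ.erase (0 : ZMod l), t * (∑ k ∈ Ico 1 l, (-1) ^ (k - 1) *
      (k : ZMod l)⁻¹ * coeff (l - 1) ((r * (Eq l t)⁻¹ * E1 l) ^ k)) = 0 := by
    have h1 : ∑ t ∈ univ.erase (0 : ZMod l), t * (∑ k ∈ Ico 1 l, (-1) ^ (k - 1) *
      (k : ZMod l)⁻¹ * coeff (l - 1) ((r * (Eq l t)⁻¹ * E1 l) ^ k))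
        = (∑ t ∈ univ.erase (0 : ZMod l), t ^ 1) * e := by
      rw [Finset.sum_mul]
      refine sum_congr rfl fun t ht => ?_
      rw [he t (mem_erase.1 ht).1, pow_one]
    rw [h1, sum_pow_nonzero, if_neg (fun hd => by
      have := Nat.le_of_dvd (by omega) hd
      omega), zero_mul]
  have hswap : ∑ t ∈ univ.erase (0 : ZMod l), t * (∑ k ∈ Ico 1 l, (-1) ^ (k - 1) *
      (k : ZMod l)⁻¹ * coeff (l - 1) ((r * (Eq l t)⁻¹ * E1 l) ^ k))
      = ∑ k ∈ Ico 1 l, (-1) ^ (k - 1) * (k : ZMod l)⁻¹ *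
        ∑ i ∈ range l, coeff i (Bs l ^ k) * coeff (l - 1 - i) ((E1 l * r) ^ k) *
          ∑ t ∈ univ.erase (0 : ZMod l), t ^ (l - k + i) := by
    have h1 : ∀ t ∈ univ.erase (0 : ZMod l), t * (∑ k ∈ Ico 1 l, (-1) ^ (k - 1) *
      (k : ZMod l)⁻¹ * coeff (l - 1) ((r * (Eq l t)⁻¹ * E1 l) ^ k))
        = ∑ k ∈ Ico 1 l, (-1) ^ (k - 1) * (k : ZMod l)⁻¹ *
          ∑ i ∈ range l, coeff i (Bs l ^ k) * coeff (l - 1 - i) ((E1 l * r) ^ k) *
            t ^ (l - k + i) := by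
      intro t ht
      rw [Finset.mul_sum]
      refine sum_congr rfl fun k hk => ?_
      rw [← hone t (mem_erase.1 ht).1 k hk]
      ring
    rw [sum_congr rfl h1, Finset.sum_comm]
    refine sum_congr rfl fun k hk => ?_
    rw [← Finset.mul_sum, Finset.sum_comm]
    congr 1
    refine sum_congr rfl fun i hi => ?_
    rw [Finset.mul_sum]
  have hX : coeff 0 (E1 l * r) = 0 := by
    rw [coeff_zero_eq_constantCoeff_apply, map_mul, X_dvd_iff.1 hr, mul_zero]
  have hinner : ∀ k ∈ Ico 1 l, ∑ i ∈ range l, coeff i (Bs l ^ k) *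
      coeff (l - 1 - i) ((E1 l * r) ^ k) * ∑ t ∈ univ.erase (0 : ZMod l), t ^ (l - k + i)
      = - ((-1) ^ (k - 1) * coeff (l - k) ((E1 l * r) ^ k)) := by
    intro k hk
    rw [mem_Ico] at hk
    rw [Finset.sum_eq_single (k - 1)]
    · rw [lag_one hk.1 hk.2, sum_pow_nonzero, if_pos (by
        have : l - k + (k - 1) = l - 1 := by omega
        rw [this]), show l - 1 - (k - 1) = l - k by omega]
      ring
    · intro i hi hne
      rw [mem_range] at hi
      rw [sum_pow_nonzero]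
      split_ifs with hd
      · obtain ⟨c, hc⟩ := hd
        rcases c with _ | c
        · rw [Nat.mul_zero] at hc
          omega
        · rcases c with _ | c
          · rw [Nat.zero_add, Nat.mul_one] at hc
            omega
          · -- `k = 1`, `i = l - 1`
            have h3 : (l - 1) * 2 ≤ l - k + i := by
              rw [hc]
              exact Nat.mul_le_mul_left _ (by omega)
            have hk1 : k = 1 := by omega
            have hi1 : i = l - 1 := by omega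
            rw [hk1, hi1, Nat.sub_self, pow_one, pow_one, hX]
            ring
      · rw [mul_zero]
    · intro h
      exact absurd (mem_range.2 (by omega)) h
  rw [hswap, sum_congr rfl (fun k hk => by rw [hinner k hk])] at hsum
  have hfin : coeff (l - 1) (LamS l r) = ∑ k ∈ Ico 1 l, (k : ZMod l)⁻¹ *
      coeff (l - k) ((E1 l * r) ^ k) := by
    unfold LamS
    rw [map_sum]
    refine sum_congr rfl fun k hk => ?_
    rw [mem_Ico] at hk
    rw [mul_assoc, coeff_C_mul]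
    have := coeff_X_pow_mul ((E1 l * r) ^ k) (k - 1) (l - k)
    rw [show l - k + (k - 1) = l - 1 by omega] at this
    rw [this]
  rw [hfin]
  have h9 : ∀ k ∈ Ico 1 l, (-1 : ZMod l) ^ (k - 1) * (k : ZMod l)⁻¹ *
      - ((-1) ^ (k - 1) * coeff (l - k) ((E1 l * r) ^ k))
      = - ((k : ZMod l)⁻¹ * coeff (l - k) ((E1 l * r) ^ k)) := by
    intro k _
    have : (-1 : ZMod l) ^ (k - 1) * (-1) ^ (k - 1) = 1 := by
      rw [← mul_pow]
      simp
    linear_combination (-((k : ZMod l)⁻¹ * coeff (l - k) ((E1 l * r) ^ k))) * this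
  rw [sum_congr rfl h9, sum_neg_distrib, neg_eq_zero] at hsum
  exact hsum

end AER
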