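import Pool.Agent.Lib_MP_aeefb1_pn.PNormA
import Pool.Agent.Lib_MP_aeefb1_reg.NormLog

/-!
MP_aeefb1_nt, `p = l`: the norm condition for a state.
-/

open Finset

namespace AER

variable {l : ℕ} [hlp : Fact l.Prime] {R : Type} [CommRing R] [IsDedekindDomain R]
  [CharZero R] [Module.Free ℤ R] [Module.Finite ℤ R]

/-- `(A - z^t B)/(1 - z^t) = u V^l` is `B (1 + ρ' H)` modulo `λ^l`. -/
private theorem PNormB_cong (Q : Cyc l R) {A B ρ' H W : R} {t : ZMod l} (ht : t ≠ 0)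
    (hH : (1 - Q.e t) * H = Q.lam)
    (hW : A - Q.e t * B = (1 - Q.e t) * W)
    (hρ : Q.lam ^ (3 * l) ∣ Q.lam * B * ρ' - (A - B)) :
    Q.lam ^ l ∣ W - B * (1 + ρ' * H) := by
  have h5 := Q.five_le
  obtain ⟨v, hv⟩ := Q.assoc_one_sub ht
  have h1 : Q.lam ^ (l + 1) ∣ Q.lam * (v * (W - B * (1 + ρ' * H))) := by
    have e : Q.lam * (v * (W - B * (1 + ρ' * H))) = -(Q.lam * B * ρ' - (A - B)) := by
      have e1 : Q.lam * (v * (W - B * (1 + ρ' * H))) =
          (1 - Q.e t) * W - (1 - Q.e t) * B - B * ρ' * ((1 - Q.e t) * H) := by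
        rw [← hv]
        ring
      rw [e1, ← hW, hH]
      ring
    rw [e]
    exact ((pow_dvd_pow _ (by omega)).trans hρ).neg_right
  rw [pow_succ'] at h1
  have h2 := (mul_dvd_mul_iff_left Q.lam_ne_zero).1 h1
  exact (Units.dvd_mul_left (u := v)).1 h2

omit hlp in
/-- The `l`-th power of an integer `1` modulo `l` is `1` modulo `l^2`. -/
private theorem PNormB_pow {m : ℤ} (h : (l : ℤ) ∣ m - 1) : (l : ℤ) ^ 2 ∣ m ^ l - 1 := by
  obtain ⟨c, hc⟩ := h
  have hm : m = 1 + l * c := by linarith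
  have h1 : (l : ℤ) * c ∣ m - 1 := ⟨1, by rw [hm]; ring⟩
  have h2 : m ^ l - 1 = (m - 1) * ∑ i ∈ range l, m ^ i := by
    rw [mul_comm, geom_sum_mul]
  have h3 : (l : ℤ) ∣ ∑ i ∈ range l, m ^ i := by
    have e : ∑ i ∈ range l, m ^ i = ∑ i ∈ range l, (m ^ i - 1) + l := by
      rw [sum_sub_distrib]
      simp
    rw [e]
    refine dvd_add (dvd_sum fun i _ => ?_) (dvd_refl _)
    have h4 : m - 1 ∣ m ^ i - 1 := by
      have := sub_dvd_pow_sub_pow m 1 i
      rwa [one_pow] at this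
    exact (Dvd.intro c hc.symm).trans h4
  rw [h2, pow_two]
  exact mul_dvd_mul (Dvd.intro c hc.symm) h3

/-- The norm condition.
Proof.  By `state_fac`, `(A - z^t B)/(1 - z^t) = u_t V_t^l` has norm `N(V_t)^l = 1` modulo
`l^2` (`Q.norm_mod`).  `A - z^t B = (1 - z^t) B + (A - B) ≡ (1 - z^t) B (1 + ρ' H_t)` modulo
`λ^(l+1)`, so `(A - z^t B)/(1 - z^t) ≡ B (1 + ρ' H_t)` modulo `λ^l` and by `Q.norm_congr`,
`N(B) N(1 + ρ' H_t) = 1` modulo `l^2`.  `N(B) = 1 + l n` (`Q.norm_mod`; `λ` does not divide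
`B`), `Q.norm_log` for the polynomial `P P_H` (it vanishes at `1`): `e = - n`.  Finally
`rho (P P_H) ≡ r (Eq t)⁻¹ E1` modulo `X^l` because `X ∣ r = rho P`. -/
theorem state_norm (Q : Cyc l R) {A B : R} {N : ℕ} {J : Ideal R} (S : State Q A B N J)
    {ρ' : R} {P : Polynomial ℤ} (hP : Polynomial.aeval Q.z P = ρ') (hP1 : P.eval 1 = 0)
    (hρ : Q.lam ^ (3 * l) ∣ Q.lam * B * ρ' - (A - B)) : NormCond l (rho l P) := by
  have h5 := Q.five_le
  have hl0 : (l : ℤ) ≠ 0 := by exact_mod_cast hlp.out.ne_zero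
  -- the norm of `B`
  have hB : ¬ Q.lam ∣ B := by
    intro h
    apply S.nd
    have e : A = (A - B) + B := by ring
    rw [e]
    exact dvd_add ((dvd_pow_self _ two_ne_zero).trans S.cg) h
  obtain ⟨n, hn⟩ := Q.norm_mod hB
  obtain ⟨-, u, V, hV, -, hVl, -⟩ := state_fac Q S
  refine ⟨-(n : ZMod l), fun t ht => ?_⟩
  obtain ⟨H, PH, hH, hPH, hHE⟩ := exists_H Q ht
  -- the norm identity
  have h1 := PNormB_cong Q ht hH (W := u t * V t ^ l) (by rw [hV t ht]; ring) hρ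
  have h2 := Q.norm_congr h1
  have hPP1 : (P * PH).eval 1 = 0 := by rw [Polynomial.eval_mul, hP1, zero_mul]
  obtain ⟨s, hs, hs'⟩ := Q.norm_log hPP1
  rw [map_mul, hP, hPH] at hs
  rw [map_mul, Q.norm_unit, one_mul, map_pow, map_mul, hs] at h2
  obtain ⟨w, hw⟩ := PNormB_pow (Q.norm_mod (hVl t))
  have hnB : Algebra.norm ℤ B = 1 + l * n := by linear_combination hn
  have h3 : (l : ℤ) ^ 2 ∣ (1 + l * w * l) - (1 + l * n) * (1 + l * s) := by
    have h4 : (((Algebra.norm ℤ (V t) ^ l - Algebra.norm ℤ B * (1 + l * s) : ℤ) : ℤ) :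
        ZMod (l ^ 2)) = 0 := by
      rw [Int.cast_sub, h2, sub_self]
    rw [ZMod.intCast_zmod_eq_zero_iff_dvd] at h4
    push_cast at h4
    have e : (1 + l * w * l) - (1 + l * n) * (1 + l * s) =
        Algebra.norm ℤ (V t) ^ l - Algebra.norm ℤ B * (1 + l * s) := by
      rw [hnB]
      linear_combination -hw
    rw [e]
    exact h4
  have h4 : (l : ℤ) ∣ n + s := by
    obtain ⟨c, hc⟩ := h3
    refine ⟨w - n * s - c, ?_⟩
    have : (l : ℤ) * (n + s) = l * (l * (w - n * s - c)) := by linear_combination -hc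
    exact mul_left_cancel₀ hl0 this
  have h6 : ((s : ℤ) : ZMod l) = -(n : ZMod l) := by
    have : ((n + s : ℤ) : ZMod l) = 0 := by
      rw [ZMod.intCast_zmod_eq_zero_iff_dvd]
      exact h4
    push_cast at this
    linear_combination this
  rw [← h6, hs']
  refine sum_congr rfl fun k _ => ?_
  congr 1
  -- the series
  refine coeff_eq_of_cg (n := l) (by omega) ?_
  refine cg_pow ?_ k
  have hX : (PowerSeries.X : PowerSeries (ZMod l)) ∣ rho l P := by
    rw [PowerSeries.X_dvd_iff, constantCoeff_rho, hP1, Int.cast_zero]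
  have hc : PowerSeries.constantCoeff (Eq l t) ≠ 0 := by
    rw [Eq_constantCoeff]
    exact ht
  have h7 : (PowerSeries.X : PowerSeries (ZMod l)) ^ (l - 1) ∣
      (Eq l t)⁻¹ * E1 l - rho l PH := by
    have e : (Eq l t)⁻¹ * E1 l - rho l PH = -((Eq l t)⁻¹ * (Eq l t * rho l PH - E1 l)) := by
      have h8 : (Eq l t)⁻¹ * Eq l t = 1 := PowerSeries.inv_mul_cancel _ hc
      linear_combination (rho l PH) * h8
    rw [e]
    exact (hHE.mul_left _).neg_right
  have e : rho l P * (Eq l t)⁻¹ * E1 l - rho l (P * PH) =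
      rho l P * ((Eq l t)⁻¹ * E1 l - rho l PH) := by
    rw [map_mul]
    ring
  rw [e]
  have hl1 : (PowerSeries.X : PowerSeries (ZMod l)) ^ l =
      PowerSeries.X * PowerSeries.X ^ (l - 1) := (mul_pow_sub_one (by omega) _).symm
  rw [hl1]
  exact mul_dvd_mul hX h7

end AER
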