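import Pool.Agent.Lib_MP_aeefb1_pn.PRelB
import Pool.Agent.Lib_MP_aeefb1_reg.Elem

/-!
MP_aeefb1_nt, `p = l`: how `ρ'` changes in one step, power series.
-/

open Finset

namespace AER

variable {l : ℕ} [hlp : Fact l.Prime] {R : Type} [CommRing R] [IsDedekindDomain R]
  [CharZero R] [Module.Free ℤ R] [Module.Finite ℤ R]

/-- The same for power series (`Q.rep_dvd_iff'`, `m = l`; `LamE_series`, `h_series`). -/
theorem relC_series (Q : Cyc l R) {A B C v ρ' : R} {η : Rˣ} {s : ℕ} (hs : s + 2 ≤ l)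
    (hA : Q.conj A = A) (hB : Q.conj B = B) (hη : Q.conj (η : R) = η) (hBl : ¬ Q.lam ∣ B)
    {j : ZMod l} (hj : j ≠ 0) (hC : A - Q.e j * B = (1 - Q.e j) * η * C ^ l)
    (hv : Q.lam ^ (3 * l) ∣ l * Q.lam ^ 2 * B * v - (A - B))
    (hρ : Q.lam ^ (3 * l) ∣ Q.lam * Q.conj C * ρ' - (C - Q.conj C))
    (hm : Q.lam ^ (l - s) ∣ ρ') (hvm : Q.lam ^ (l - s) ∣ v)
    {P Pv : Polynomial ℤ} (hP : Polynomial.aeval Q.z P = ρ') (hP1 : P.eval 1 = 0)
    (hPv : Polynomial.aeval Q.z Pv = v) (hPv1 : Pv.eval 1 = 0) :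
    (PowerSeries.X : PowerSeries (ZMod l)) ^ l ∣ LamS l (rho l P) * Eq l j -
      rho l Pv * E1 l ^ 2 * (1 + PowerSeries.rescale j (Ex l)) := by
  have h5 := Q.five_le
  obtain ⟨P', hP', hP'1, hP'2⟩ := LamE_series Q hP hP1
  obtain ⟨h, Ph, hh, hPh, hPh1⟩ := h_series Q hj
  have h1 := relC_elem Q hs hA hB hη hBl hj hC hv hρ hm hvm hh
  have h2 : (PowerSeries.X : PowerSeries (ZMod l)) ^ l ∣
      rho l (P' * Ph - Pv * (1 + Polynomial.X ^ j.val)) := by
    rw [← Q.rep_dvd_iff' (by simp [hP'1, hPv1]) le_rfl]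
    rw [map_sub, map_mul, map_mul, map_add, map_one, map_pow, Polynomial.aeval_X, hP', hPh, hPv]
    exact h1
  rw [map_sub, map_mul, map_mul, map_add, map_one, map_pow, rho_X] at h2
  -- `X ∣ LamS`
  have h6 : Q.lam ^ 1 ∣ Polynomial.aeval Q.z P := by
    rw [hP]
    exact (pow_dvd_pow _ (by omega)).trans hm
  have h7 : (PowerSeries.X : PowerSeries (ZMod l)) ∣ rho l P := by
    have := (Q.rep_dvd_iff (m := 1) (by omega)).1 h6
    rwa [pow_one] at this
  have h8 : (PowerSeries.X : PowerSeries (ZMod l)) ∣ LamS l (rho l P) := by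
    unfold LamS
    refine dvd_sum fun k hk => ?_
    rw [mem_Ico] at hk
    refine Dvd.dvd.mul_left ?_ _
    exact (h7.mul_left _).trans (dvd_pow_self _ (by omega))
  have h9 : (PowerSeries.X : PowerSeries (ZMod l)) ^ l ∣
      LamS l (rho l P) * (E1 l * rho l Ph - Eq l j) := by
    have e : (PowerSeries.X : PowerSeries (ZMod l)) ^ l
        = PowerSeries.X * PowerSeries.X ^ (l - 1) := by
      rw [← pow_succ', Nat.sub_add_cancel (by omega)]
    rw [e]
    exact mul_dvd_mul h8 hPh1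
  have h10 := Ex_pow l j.val
  rw [ZMod.natCast_zmod_val] at h10
  have e : LamS l (rho l P) * Eq l j -
      rho l Pv * E1 l ^ 2 * (1 + PowerSeries.rescale j (Ex l))
      = E1 l ^ 2 * (rho l P' * rho l Ph - rho l Pv * (1 + Ex l ^ j.val))
        - LamS l (rho l P) * (E1 l * rho l Ph - Eq l j)
        + rho l Pv * E1 l ^ 2 * (Ex l ^ j.val - PowerSeries.rescale j (Ex l)) := by
    rw [← hP'2]
    ring
  rw [e]
  exact dvd_add (dvd_sub (h2.mul_left _) h9) (h10.mul_left _)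

end AER
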