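import Pool.Agent.Lib_MP_aeefb1_pn.PStepA
import Pool.Agent.Lib_MP_aeefb1_pn.PNormB
import Pool.Agent.Lib_MP_aeefb1_pn.PRelC
import Pool.Agent.Lib_MP_aeefb1_pn.PLag
import Pool.Agent.Lib_MP_aeefb1_pn.PEnd
import Pool.Agent.Lib_MP_aeefb1_reg.Tser

/-!
MP_aeefb1_nt, `p = l`: no real state with `2 l ≤ N ≤ 3 l - 2`, `N` even.
-/

open Finset

namespace AER

variable {l : ℕ} [hlp : Fact l.Prime] {R : Type} [CommRing R] [IsDedekindDomain R]
  [CharZero R] [Module.Free ℤ R] [Module.Finite ℤ R]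

theorem state_nd' (Q : Cyc l R) {A B : R} {N : ℕ} {J : Ideal R} (S : State Q A B N J) :
    ¬ Q.lam ∣ B := by
  intro h
  apply S.nd
  have h1 : Q.lam ∣ A - B := (dvd_pow_self _ (by norm_num)).trans S.cg
  have e : A = (A - B) + B := by ring
  rw [e]
  exact dvd_add h1 h

/-- the quotient `v` with `A - B ≡ l λ^2 B v` -/
theorem exists_pn_v (Q : Cyc l R) {A B : R} {N : ℕ} {J : Ideal R} (S : State Q A B N J)
    (hN1 : 2 * l + 1 ≤ N) (hN2 : N + 2 ≤ 3 * l) :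
    ∃ (v : R) (P : Polynomial ℤ), Q.lam ^ (3 * l) ∣ l * Q.lam ^ 2 * B * v - (A - B) ∧
      Polynomial.aeval Q.z P = v ∧ P.eval 1 = 0 ∧ Q.lam ^ (N - 2 * l) ∣ v ∧
      ¬ Q.lam ^ (N - 2 * l + 1) ∣ v := by
  have h5 := Q.five_le
  obtain ⟨h1, h2⟩ := state_val Q S
  obtain ⟨δ, hδ⟩ := h1
  obtain ⟨u, hu⟩ := Q.assoc_lam_pow
  obtain ⟨y, hy⟩ := Q.exists_inv (state_nd' Q S) (3 * l)
  have e0 : Q.lam ^ (N - l + 1) = Q.lam ^ (l - 1) * Q.lam ^ 2 * Q.lam ^ (N - 2 * l) := by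
    rw [← pow_add, ← pow_add]
    congr 1
    omega
  have e1 : (l : R) * Q.lam ^ 2 * B * (Q.lam ^ (N - 2 * l) * ((u⁻¹ : Rˣ) : R) * δ * y) - (A - B)
      = Q.lam ^ (N - l + 1) * δ * (B * y - 1) := by
    have hu1 : (u : R) * ((u⁻¹ : Rˣ) : R) = 1 := Units.mul_inv u
    rw [hδ, e0, ← hu]
    linear_combination (Q.lam ^ (l - 1) * Q.lam ^ 2 * Q.lam ^ (N - 2 * l) * δ * (B * y)) * hu1
  have h3 : Q.lam ^ (3 * l) ∣
      (l : R) * Q.lam ^ 2 * B * (Q.lam ^ (N - 2 * l) * ((u⁻¹ : Rˣ) : R) * δ * y) - (A - B) := by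
    rw [e1]
    exact hy.mul_left _
  have h4 : Q.lam ^ (N - 2 * l) ∣ Q.lam ^ (N - 2 * l) * ((u⁻¹ : Rˣ) : R) * δ * y := by
    rw [mul_assoc, mul_assoc]
    exact dvd_mul_right _ _
  obtain ⟨P, hP, hP1⟩ := Q.rep_exists
    (x := Q.lam ^ (N - 2 * l) * ((u⁻¹ : Rˣ) : R) * δ * y) (n := 0) (by
      rw [Int.cast_zero, sub_zero]
      exact (dvd_pow_self _ (by omega)).trans h4)
  refine ⟨_, P, h3, hP, hP1, h4, ?_⟩
  intro h6
  apply h2
  have h7 : Q.lam ^ (N - l + 2) ∣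
      (l : R) * Q.lam ^ 2 * B * (Q.lam ^ (N - 2 * l) * ((u⁻¹ : Rˣ) : R) * δ * y) := by
    have e : N - l + 2 = (l - 1) + 2 + (N - 2 * l + 1) := by omega
    rw [e, pow_add, pow_add]
    refine mul_dvd_mul ?_ h6
    exact Dvd.dvd.mul_right (mul_dvd_mul Q.lam_pow_dvd_l (dvd_refl _)) _
  have h8 := (pow_dvd_pow Q.lam (show N - l + 2 ≤ 3 * l by omega)).trans h3
  have h9 := dvd_sub h7 h8
  rw [sub_sub_cancel] at h9
  exact h9

/-- the real states with `2 l ≤ N ≤ 3 l - 2` -/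
theorem end_real (Q : Cyc l R)
    (hBer : ∀ k : ℕ, 1 ≤ k → 2 * k ≤ l - 3 → ¬ (l : ℤ) ∣ (bernoulli (2 * k)).num)
    {A B : R} {N : ℕ} {J : Ideal R} (S : State Q A B N J)
    (hA : Q.conj A = A) (hB : Q.conj B = B) (hN1 : 2 * l ≤ N) (hN2 : N + 2 ≤ 3 * l)
    (hev : Even N) : False := by
  have h5 := Q.five_le
  have hlodd : Odd l := hlp.out.odd_of_ne_two (by omega)
  obtain ⟨η, J', hη, hC⟩ := real_to_conj Q S hA hB (by omega)
  have hN3 : l + 1 ≤ N - l := by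
    obtain ⟨C, -, SC⟩ := hC 1 one_ne_zero
    exact (state_fac Q SC).1
  obtain ⟨v, Pv, hv, hPv, hPv1, hv1, hv2⟩ := exists_pn_v Q S (by omega) hN2
  obtain ⟨s, hs⟩ : ∃ s, s = 3 * l - N := ⟨_, rfl⟩
  obtain ⟨a, ha⟩ := hlodd
  obtain ⟨b, hb⟩ := hev
  have hsodd : Odd s := ⟨3 * a + 1 - b, by omega⟩
  have hs3 : 3 ≤ s := by omega
  have hsl : s + 2 ≤ l := by omega
  have els : N - 2 * l = l - s := by omega
  rw [els] at hv1 hv2
  have key : ∀ j : ZMod l, j ≠ 0 → ∃ L : PowerSeries (ZMod l),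
      (PowerSeries.X : PowerSeries (ZMod l)) ^ l ∣ L * Eq l j -
        rho l Pv * E1 l ^ 2 * (1 + PowerSeries.rescale j (Ex l)) ∧
      PowerSeries.coeff (l - 1) L = 0 := by
    intro j hj
    obtain ⟨C, hC1, SC⟩ := hC j hj
    obtain ⟨ρ', P, hρ, hP, hP1, hρ1, -⟩ := exists_rho Q SC (by omega)
    have hnc := state_norm Q SC hP hP1 hρ
    have e2 : N - l - l = l - s := by omega
    rw [e2] at hρ1
    refine ⟨LamS l (rho l P), ?_, ?_⟩
    · exact relC_series Q hsl hA hB hη (state_nd' Q S) hj hC1 hv hρ hρ1 hv1 hP hP1 hPv hPv1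
    · refine end_C h5 ?_ hnc
      have h6 : Q.lam ^ 1 ∣ Polynomial.aeval Q.z P := by
        rw [hP]
        exact (pow_dvd_pow _ (by omega)).trans hρ1
      have h7 := (Q.rep_dvd_iff (m := 1) (by omega)).1 h6
      rw [pow_one] at h7
      exact h7
  choose! L hL1 hL2 using key
  refine end_C_contra h5 hBer hs3 hsl hsodd (rho l Pv) ?_ ?_ L hL1 hL2
  · exact (Q.rep_dvd_iff (by omega)).1 (by rw [hPv]; exact hv1)
  · intro h
    exact hv2 (by rw [← hPv]; exact (Q.rep_dvd_iff (by omega)).2 h)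

end AER
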