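import Pool.Agent.Lib_MP_aeefb1_pn.PUnit

/-!
MP_aeefb1_nt, `p = l`: the step `N ↦ N - l`, conjugate to real.
-/

open Finset

namespace AER

variable {l : ℕ} [hlp : Fact l.Prime] {R : Type} [CommRing R] [IsDedekindDomain R]
  [CharZero R] [Module.Free ℤ R] [Module.Finite ℤ R]

/-- `x ^ l ≡ x` modulo `λ` -/
private theorem pstepB_frob (Q : Cyc l R) (x : R) : Q.lam ∣ x ^ l - x := by
  obtain ⟨m, hm, hm2⟩ := Q.pow_l_int x
  have e1 : x ^ l - x = (x ^ l - m) - (x - m) := by ring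
  rw [e1]
  exact dvd_sub (Q.lam_dvd_l.trans hm) hm2

/-- From a conjugate pair to real pairs.
Proof.  `common_unit` (`conj B = A ≡ B` modulo `λ^(N-l+1)`).  Conjugating `C - z^t C̄ =
(1 - z^t) η w^l` gives `w^l = (conj w)^l`, so `w_t` can be twisted to be real
(`Q.exists_real`).  `(1 - z^t)(1 - z^r) η (w_t^l - w_r^l) = (C - C̄)(z^t - z^r)`: ideal
`(λ)^(N - l) (V)^l`.  `w_t ≡ w_r` modulo `λ` (`x^l ≡ x` modulo `λ`), hence modulo `λ^2`
(`Q.real_val`). -/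
theorem conj_to_real (Q : Cyc l R) {C : R} {N : ℕ} {J : Ideal R}
    (S : State Q C (Q.conj C) N J) (hN : 2 * l - 1 ≤ N) :
    ∃ (η : Rˣ) (J' : Ideal R) (w : ZMod l → R), Q.conj (η : R) = η ∧
      (∀ t, t ≠ 0 → Q.conj (w t) = w t ∧
        C - Q.e t * Q.conj C = (1 - Q.e t) * η * w t ^ l) ∧
      ∀ t r, t ≠ 0 → r ≠ 0 → t ≠ r → State Q (w t) (w r) (N - l) J' := by
  have h5 := Q.five_le
  have hB : (l : R) ∣ Q.conj C - Q.conj (Q.conj C) := by
    obtain ⟨hN1, u, V, -, hV0, -, -⟩ := state_fac Q S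
    rw [Q.conj_conj, Q.l_dvd_iff]
    have h1 : Q.lam ^ (l - 1) ∣ C - Q.conj C := by
      rw [hV0, mul_assoc]
      exact (pow_dvd_pow Q.lam (by omega)).mul_right _
    have h2 := (dvd_neg (α := R)).2 h1
    rwa [neg_sub] at h2
  obtain ⟨η, w₀, hη, hw₀, hnd, hcop, u, V, hCC, hV⟩ := common_unit Q S hN hB
  -- `w₀ t ^ l` is real
  have hreal : ∀ t, t ≠ 0 → Q.conj (w₀ t) ^ l = w₀ t ^ l := by
    intro t ht
    have h1 := hw₀ t ht
    have h2 := congrArg Q.conj h1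
    rw [map_sub, map_mul, Q.conj_conj, Q.conj_e, map_mul, map_mul, map_sub, map_one, Q.conj_e,
      hη, map_pow] at h2
    have hne : (1 - Q.e t) * (η : R) ≠ 0 := by
      refine mul_ne_zero ?_ η.ne_zero
      intro h
      have h3 := Q.assoc_one_sub ht
      rw [h, associated_zero_iff_eq_zero] at h3
      exact Q.lam_ne_zero h3
    refine mul_left_cancel₀ hne ?_
    rw [← h1]
    linear_combination (Q.e t) * h2 + (C - (η : R) * Q.conj (w₀ t) ^ l) * Q.e_neg_mul t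
  have hex : ∀ t : ZMod l, ∃ a : ZMod l, t ≠ 0 → Q.conj (Q.e a * w₀ t) = Q.e a * w₀ t := by
    intro t
    by_cases ht : t = 0
    · exact ⟨0, fun h => absurd ht h⟩
    · obtain ⟨a, ha⟩ := Q.exists_real (hreal t ht)
      exact ⟨a, fun _ => ha⟩
  choose a ha using hex
  have hpow : ∀ t, (Q.e (a t) * w₀ t) ^ l = w₀ t ^ l := by
    intro t
    rw [mul_pow, Q.e_pow, CharP.cast_eq_zero, zero_mul, Q.e_zero, one_mul]
  refine ⟨η, Ideal.span {V}, fun t => Q.e (a t) * w₀ t, hη, ?_, ?_⟩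
  · intro t ht
    refine ⟨ha t ht, ?_⟩
    rw [hpow t]
    exact hw₀ t ht
  · intro t r ht hr htr
    obtain ⟨v₁, hv₁⟩ := Q.assoc_one_sub ht
    obtain ⟨v₂, hv₂⟩ := Q.assoc_one_sub hr
    obtain ⟨v₃, hv₃⟩ := Q.assoc_sub htr
    have e4 : (v₁ : R) * v₂ * η * ((Q.e (a t) * w₀ t) ^ l - (Q.e (a r) * w₀ r) ^ l) =
        Q.lam ^ (N - l) * (v₃ * u * V ^ l) := by
      rw [hpow t, hpow r]
      refine mul_left_cancel₀ (pow_ne_zero 2 Q.lam_ne_zero) ?_
      have hp : Q.lam ^ (N - l + 1) = Q.lam * Q.lam ^ (N - l) := pow_succ' _ _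
      rw [hp] at hCC
      have f1 := hw₀ t ht
      have f2 := hw₀ r hr
      rw [← hv₁] at f1
      rw [← hv₂] at f2
      have g : Q.lam ^ 2 * ((v₁ : R) * v₂ * η * (w₀ t ^ l - w₀ r ^ l)) =
          Q.lam * v₂ * (C - Q.e t * Q.conj C) - Q.lam * v₁ * (C - Q.e r * Q.conj C) := by
        rw [f1, f2]
        ring
      rw [g, hv₁, hv₂]
      have g2 : (1 - Q.e r) * (C - Q.e t * Q.conj C) - (1 - Q.e t) * (C - Q.e r * Q.conj C) =
          (Q.e t - Q.e r) * (C - Q.conj C) := by ring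
      rw [g2, ← hv₃, hCC]
      ring
    have hu : (u : R) * ↑u⁻¹ = 1 := u.mul_inv
    have h₃ : (v₃ : R) * ↑v₃⁻¹ = 1 := v₃.mul_inv
    refine ⟨?_, ?_, ?_, ?_, ?_⟩
    · exact (isCoprime_mul_unit_left_left (Q.isUnit_e _) _ _).2
        ((isCoprime_mul_unit_left_right (Q.isUnit_e _) _ _).2 (hcop t r ht hr htr))
    · intro h
      exact hnd t ht ((Q.isUnit_e (a t)).dvd_mul_left.1 h)
    · have hr' : Q.conj (Q.e (a t) * w₀ t - Q.e (a r) * w₀ r) =
          Q.e (a t) * w₀ t - Q.e (a r) * w₀ r := by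
        rw [map_sub, ha t ht, ha r hr]
      refine Q.real_val hr' odd_one ?_
      rw [pow_one]
      have hlN : 1 ≤ N - l := by omega
      have h1 : Q.lam ∣ (Q.e (a t) * w₀ t) ^ l - (Q.e (a r) * w₀ r) ^ l := by
        have h2 : Q.lam ∣ (v₁ : R) * v₂ * η *
            ((Q.e (a t) * w₀ t) ^ l - (Q.e (a r) * w₀ r) ^ l) := by
          rw [e4]
          exact (dvd_pow_self _ (by omega)).mul_right _
        exact (((v₁.isUnit.mul v₂.isUnit).mul η.isUnit).dvd_mul_left).1 h2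
      have e5 : Q.e (a t) * w₀ t - Q.e (a r) * w₀ r =
          ((Q.e (a t) * w₀ t) ^ l - (Q.e (a r) * w₀ r) ^ l)
          - ((Q.e (a t) * w₀ t) ^ l - Q.e (a t) * w₀ t)
          + ((Q.e (a r) * w₀ r) ^ l - Q.e (a r) * w₀ r) := by ring
      rw [e5]
      exact dvd_add (dvd_sub h1 (pstepB_frob Q _)) (pstepB_frob Q _)
    · rw [Ideal.isCoprime_span_singleton_iff]
      exact second1_coprime_lam Q hV
    · rw [Ideal.span_singleton_pow, Ideal.span_singleton_pow,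
        Ideal.span_singleton_mul_span_singleton, Ideal.span_singleton_eq_span_singleton]
      refine ⟨v₁ * v₂ * η * u⁻¹ * v₃⁻¹, ?_⟩
      push_cast
      linear_combination ((↑u⁻¹ : R) * ↑v₃⁻¹) * e4
        + Q.lam ^ (N - l) * V ^ l * (v₃ * ↑v₃⁻¹ * hu + h₃)

end AER
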