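import Pool.Agent.Lib_MP_aeefb1_pn.PPar
import Pool.Agent.Lib_MP_aeefb1_pn.PStepB
import Pool.Agent.Lib_MP_aeefb1_pn.PMain

/-!
MP_aeefb1_nt, `p = l`: no real state at all (descent on `N`), and no integer solution of
`x ^ l + y ^ l = l ^ s z ^ l`.
-/

open Finset

namespace AER

variable {l : ℕ} [hlp : Fact l.Prime] {R : Type} [CommRing R] [IsDedekindDomain R]
  [CharZero R] [Module.Free ℤ R] [Module.Finite ℤ R]

theorem no_real_state (Q : Cyc l R) (h7 : 7 ≤ l)
    (hBer : ∀ k : ℕ, 1 ≤ k → 2 * k ≤ l - 3 → ¬ (l : ℤ) ∣ (bernoulli (2 * k)).num) :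
    ∀ (N : ℕ) (A B : R) (J : Ideal R), Q.conj A = A → Q.conj B = B → ¬ State Q A B N J := by
  intro N
  induction N using Nat.strong_induction_on with
  | _ N ih =>
    intro A B J hA hB S
    obtain ⟨hN, hev⟩ := parity Q h7 S hA hB
    rcases Nat.lt_or_ge (3 * l) (N + 2) with h | h
    · obtain ⟨η, J', hη, hC⟩ := real_to_conj Q S hA hB (by omega)
      obtain ⟨C, -, SC⟩ := hC 1 one_ne_zero
      obtain ⟨η', J'', w, hη', hw, hS⟩ := conj_to_real Q SC (by omega)
      have h1 : (-1 : ZMod l) ≠ 0 := Cyc.neg_one_ne_zero'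
      have h2 : (1 : ZMod l) ≠ -1 := by
        intro h
        have h3 : ((2 : ℕ) : ZMod l) = 0 := by
          push_cast
          linear_combination h
        rw [ZMod.natCast_eq_zero_iff] at h3
        have := Nat.le_of_dvd (by norm_num) h3
        omega
      exact ih (N - l - l) (by omega) _ _ J'' (hw 1 one_ne_zero).1 (hw (-1) h1).1
        (hS 1 (-1) one_ne_zero h1 h2)
    · exact end_real Q hBer S hA hB hN h hev

theorem no_int_sol_pn (Q : Cyc l R) (h7 : 7 ≤ l)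
    (hBer : ∀ k : ℕ, 1 ≤ k → 2 * k ≤ l - 3 → ¬ (l : ℤ) ∣ (bernoulli (2 * k)).num)
    {x y z : ℤ} {s : ℕ} (hs : s ≠ 0) (hxy : IsCoprime x y) (hz : z ≠ 0)
    (h : x ^ l + y ^ l = (l : ℤ) ^ s * z ^ l) : False := by
  have hlodd : Odd l := hlp.out.odd_of_ne_two (by omega)
  have hlp' : Prime (l : ℤ) := Nat.prime_iff_prime_int.mp hlp.out
  -- `l ∣ x + y`
  have hf : ∀ t : ℤ, (l : ℤ) ∣ t ^ l - t := by
    intro t
    rw [← ZMod.intCast_zmod_eq_zero_iff_dvd]
    push_cast
    rw [ZMod.pow_card, sub_self]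
  have hsum : (l : ℤ) ∣ x + y := by
    have h1 : (l : ℤ) ∣ x ^ l + y ^ l := by
      rw [h]
      exact (dvd_pow_self _ hs).mul_right _
    have e : x + y = (x ^ l + y ^ l) - ((x ^ l - x) + (y ^ l - y)) := by ring
    rw [e]
    exact dvd_sub h1 (dvd_add (hf x) (hf y))
  have hx : ¬ (l : ℤ) ∣ x := by
    intro hx
    have hy : (l : ℤ) ∣ y := by
      have e : y = (x + y) - x := by ring
      rw [e]
      exact dvd_sub hsum hx
    exact hlp'.not_isUnit (hxy.isUnit_of_dvd' hx hy)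
  -- `z = l ^ v z'`
  obtain ⟨v, z', hz', hzz⟩ : ∃ (v : ℕ) (z' : ℤ), ¬ (l : ℤ) ∣ z' ∧ z = (l : ℤ) ^ v * z' := by
    obtain ⟨z', h1, h2⟩ := (Int.finiteMultiplicity_iff.2
      ⟨by rw [Int.natAbs_natCast]; omega, hz⟩ : FiniteMultiplicity (l : ℤ) z).exists_eq_pow_mul_and_not_dvd
    exact ⟨_, z', h2, h1⟩
  have hlamint : ∀ t : ℤ, Q.lam ∣ (t : R) → (l : ℤ) ∣ t := by
    intro t ht
    exact Q.l_dvd_of_lam_dvd ht
  refine no_real_state Q h7 hBer ((l - 1) * (s + l * v)) (x : R) (-(y : R))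
    (Ideal.span {(z' : R)}) (map_intCast _ _) (by rw [map_neg, map_intCast]) ⟨?_, ?_, ?_, ?_, ?_⟩
  · have := hxy.map (Int.castRingHom R)
    exact this.neg_right
  · intro h1
    exact hx (hlamint x h1)
  · have e : (x : R) - -(y : R) = ((x + y : ℤ) : R) := by push_cast; ring
    rw [e]
    obtain ⟨t, ht⟩ := hsum
    rw [ht]
    push_cast
    exact ((pow_dvd_pow _ (by omega)).trans Q.lam_pow_dvd_l).mul_right _
  · rw [Ideal.isCoprime_span_singleton_iff]
    exact Q.coprime_lam (fun h1 => hz' (hlamint z' h1))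
  · rw [Ideal.span_singleton_pow, Ideal.span_singleton_pow, Ideal.span_singleton_mul_span_singleton,
      Ideal.span_singleton_eq_span_singleton]
    have e1 : (x : R) ^ l - (-(y : R)) ^ l = (l : R) ^ (s + l * v) * (z' : R) ^ l := by
      have h1 := congrArg (Int.cast (R := R)) h
      push_cast at h1
      rw [hlodd.neg_pow, sub_neg_eq_add, h1, hzz]
      push_cast
      ring
    rw [e1, pow_mul]
    exact (Q.assoc_lam_pow.symm.pow_pow).mul_right _

end AER
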