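import Pool.Agent.Lib_MP_aeefb1_reg.FinalReg
import Pool.Agent.Lib_MP_aeefb1_pn.PDesc

/-!
MP_aeefb1_nt: the final theorem including the prime `p = n`, from Kummer's lemma.
-/

open NumberField

namespace AER

theorem final_all {n : ℕ} (hn : n.Prime) (h7 : 7 ≤ n)
    (hcl : ¬ n ∣ classNumber (CyclotomicField n ℚ))
    (hB : ∀ k : ℕ, 1 ≤ k → 2 * k ≤ n - 3 → ¬ (n : ℤ) ∣ (bernoulli (2 * k)).num)
    (hK : ∀ (u : (𝓞 (CyclotomicField n ℚ))ˣ) (m : ℤ),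
      (n : 𝓞 (CyclotomicField n ℚ)) ∣ (u : 𝓞 (CyclotomicField n ℚ)) - m →
        ∃ v : (𝓞 (CyclotomicField n ℚ))ˣ, u = v ^ n)
    {p : ℕ} (hp : p.Prime) (hp2 : p ≠ 2) (hp1 : ¬ p ≡ 1 [MOD n])
    (hw : ¬ p ^ (n - 1) ≡ 1 [MOD n ^ 2]) {k A B C D : ℕ}
    (hA : 0 < A) (hB' : 0 < B) (h1 : A + B = C) (h2 : A * B * C = D ^ n)
    (h3 : Nat.gcd A (Nat.gcd B C) = p ^ k) : False := by
  by_cases hpn : p = n
  · subst hpn
    haveI : Fact p.Prime := ⟨hn⟩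
    haveI : NeZero ((p : ℕ) : ℚ) := ⟨by exact_mod_cast hn.ne_zero⟩
    haveI : NeZero p := ⟨hn.ne_zero⟩
    haveI : IsCyclotomicExtension {p} ℚ (CyclotomicField p ℚ) :=
      CyclotomicField.isCyclotomicExtension p ℚ
    obtain ⟨Q⟩ := exists_cyc (l := p) (by omega)
      (IsCyclotomicExtension.zeta_spec p ℚ (CyclotomicField p ℚ)) hcl hK
    rcases elim_main hn (by omega) hp hA hB' h1 h2 h3 with ⟨x, y, z, c1, c2, c3, c4, c5⟩ |
      ⟨x, y, z, s, c1, c2, c3, c4⟩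
    · exact flt_regular Q c1 c2 c3 c4 c5
    · exact no_int_sol_pn Q h7 hB (fun h => c1 (by rw [h]; exact dvd_zero p)) c2 c3 c4
  · exact final_of_kummer hn (by omega) hcl hB hK hp hp2 hpn hp1 hw hA hB' h1 h2 h3

end AER
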