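import Pool.Agent.Lib_MP_aeefb1_reg.Rep
import Pool.Agent.Lib_MP_aeefb1_reg.BerMod

/-!
MP_aeefb1_nt, `p = l`: the power series `q E1(qX) = (exp(qX) - 1)/X` and `LamS r`.
-/

open Finset PowerSeries

namespace AER

variable (l : ℕ) [hlp : Fact l.Prime]

/-- `(exp (qX) - 1) / X` -/
noncomputable def Eq (q : ZMod l) : PowerSeries (ZMod l) := C q * rescale q (E1 l)

/-- `∑ X^(k-1) (E1 r)^k / k = - log (1 + (1 - Ex) r) / X` -/
noncomputable def LamS (r : PowerSeries (ZMod l)) : PowerSeries (ZMod l) :=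
  ∑ k ∈ Ico 1 l, C ((k : ZMod l)⁻¹) * X ^ (k - 1) * (E1 l * r) ^ k

/-- The condition which comes from the norms (a state `A ≡ B` with `A - B = λ B ρ'`,
`r = rho ρ'`). -/
def NormCond (r : PowerSeries (ZMod l)) : Prop :=
  ∃ e : ZMod l, ∀ t : ZMod l, t ≠ 0 →
    ∑ k ∈ Ico 1 l, (-1) ^ (k - 1) * (k : ZMod l)⁻¹ *
      coeff (l - 1) ((r * (Eq l t)⁻¹ * E1 l) ^ k) = e

theorem Eq_constantCoeff (q : ZMod l) : constantCoeff (Eq l q) = q := by
  rw [Eq, map_mul, constantCoeff_C]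
  have h : constantCoeff (rescale q (E1 l)) = 1 := by
    rw [← coeff_zero_eq_constantCoeff_apply, coeff_rescale, pow_zero, one_mul]
    simp [E1]
  rw [h, mul_one]

theorem X_mul_Eq (q : ZMod l) : X * Eq l q = rescale q (Ex l) - 1 := by
  have h5 := congrArg (rescale q) (X_mul_E1 l)
  rw [map_mul, map_sub, map_one, rescale_X] at h5
  rw [← h5, Eq]
  ring

theorem Eq_one : Eq l 1 = E1 l := by
  rw [Eq, map_one, one_mul, rescale_one, RingHom.id_apply]

end AER
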