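import Pool.Agent.Lib_MP_aeefb1_reg.Second1

/-!
MP_aeefb1_nt, the prime `p = n = l`: pairs `A ≡ B` modulo `λ ^ 2` with
`(A ^ l - B ^ l) = (λ) ^ N J ^ l`.
-/

open Finset

namespace AER

variable {l : ℕ} [hlp : Fact l.Prime] {R : Type} [CommRing R] [IsDedekindDomain R]
  [CharZero R] [Module.Free ℤ R] [Module.Finite ℤ R]

/-- A pair `A ≡ B` modulo `λ ^ 2` with `(A ^ l - B ^ l) = (λ) ^ N J ^ l`. -/
structure State (Q : Cyc l R) (A B : R) (N : ℕ) (J : Ideal R) : Prop where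
  cop : IsCoprime A B
  nd : ¬ Q.lam ∣ A
  cg : Q.lam ^ 2 ∣ A - B
  copJ : IsCoprime J (Ideal.span {Q.lam})
  eq : Ideal.span {A ^ l - B ^ l} = Ideal.span {Q.lam} ^ N * J ^ l

/-- Factorisation of a state.
Proof (as `second_ideals` in Lib_MP_aeefb1_reg/Second1.lean, with `X = A`, `Y = -B`, `P = 1`).
`A - z^t B = (A - B) + (1 - z^t) B` is divisible by `λ` exactly once for `t ≠ 0`; write
`A - z^t B = λ c_t`; the `c_t` are pairwise coprime, `∏ c_t = (A^l - B^l)/λ^l` (`Q.prod_add`, `l`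
odd), so (ideals) `∏ (c_t) = (λ)^(N - l) J^l`, and `N ≥ l + 1` because `λ ∣ c_0`.  Only `c_0` is
divisible by `λ`, so `(c_0) = (λ)^(N - l) C_0`; apply `ideal_split` (`a = 1`): `(c_t) = B_t^l`
(`t ≠ 0`), `C_0 = B_0^l`.  `B_t^l` is principal: for `t ≠ 0` generated by `c_t`, for `t = 0` by
`c_0 / λ^(N - l)`; so `B_t = (V_t)` by `Q.princ`.  Finally `λ` and `1 - z^t` are associated. -/
theorem state_fac (Q : Cyc l R) {A B : R} {N : ℕ} {J : Ideal R} (S : State Q A B N J) :
    l + 1 ≤ N ∧ ∃ (u : ZMod l → Rˣ) (V : ZMod l → R),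
      (∀ t, t ≠ 0 → A - Q.e t * B = (1 - Q.e t) * u t * V t ^ l) ∧
      A - B = Q.lam ^ (N - l + 1) * u 0 * V 0 ^ l ∧
      (∀ t, ¬ Q.lam ∣ V t) ∧ (∀ t r, t ≠ r → IsCoprime (V t) (V r)) := by
  classical
  have h5 := Q.five_le
  have hodd : Odd l := hlp.out.odd_of_ne_two (by omega)
  have hlam0 : (Ideal.span {Q.lam} : Ideal R) ≠ 0 := by
    rw [Ne, Ideal.zero_eq_bot, Ideal.span_singleton_eq_bot]
    exact Q.lam_ne_zero
  have hlamu : ¬ IsUnit (Ideal.span {Q.lam} : Ideal R) := by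
    rw [Ideal.isUnit_iff, Ideal.span_singleton_eq_top]
    exact Q.not_isUnit_lam
  have hcg1 : Q.lam ∣ A - B := (dvd_pow_self _ two_ne_zero).trans S.cg
  have hB : ¬ Q.lam ∣ B := by
    intro h
    apply S.nd
    have e : A = (A - B) + B := by ring
    rw [e]
    exact dvd_add hcg1 h
  -- the factors
  have hdvd : ∀ q : ZMod l, Q.lam ∣ A - Q.e q * B := by
    intro q
    have e : A - Q.e q * B = (A - B) + (1 - Q.e q) * B := by ring
    rw [e]
    exact dvd_add hcg1 ((Q.lam_dvd_one_sub_e q).mul_right _)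
  choose c hc using hdvd
  have hc0 : Q.lam ∣ c 0 := by
    have h3 := hc 0
    rw [Q.e_zero, one_mul] at h3
    have h2 := S.cg
    rw [h3, pow_two] at h2
    exact (mul_dvd_mul_iff_left Q.lam_ne_zero).1 h2
  -- differences
  have hdiff : ∀ q r : ZMod l, q ≠ r → ∃ v : Rˣ, c q - c r = -(v * B) ∧
      Q.e q * c r - Q.e r * c q = v * A := by
    intro q r hqr
    obtain ⟨v, hv⟩ := Q.assoc_sub hqr
    refine ⟨v, ?_, ?_⟩
    · apply mul_left_cancel₀ Q.lam_ne_zero
      linear_combination -hc q + hc r + B * hv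
    · apply mul_left_cancel₀ Q.lam_ne_zero
      linear_combination -Q.e q * hc r + Q.e r * hc q - A * hv
  have hcq : ∀ q : ZMod l, q ≠ 0 → ¬ Q.lam ∣ c q := by
    intro q hq h3
    obtain ⟨v, hv, -⟩ := hdiff q 0 hq
    have h4 : Q.lam ∣ -(v * B) := by rw [← hv]; exact dvd_sub h3 hc0
    rw [dvd_neg] at h4
    exact hB ((Units.dvd_mul_left).1 h4)
  have hcop : ∀ q r : ZMod l, q ≠ r → IsCoprime (c q) (c r) := by
    intro q r hqr
    obtain ⟨v, hv1, hv2⟩ := hdiff q r hqr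
    obtain ⟨a, b, hab⟩ := S.cop
    refine ⟨(↑v⁻¹ : R) * (-a * Q.e r - b), (↑v⁻¹ : R) * (a * Q.e q + b), ?_⟩
    have hvv : (↑v⁻¹ : R) * v = 1 := v.inv_mul
    linear_combination hab + (↑v⁻¹ : R) * a * hv2 - (↑v⁻¹ : R) * b * hv1
      + (a * A + b * B) * hvv
  -- ideals
  have hprodc : A ^ l - B ^ l = Q.lam ^ l * ∏ q, c q := by
    have h3 : ∏ q : ZMod l, (A + Q.e q * (-B)) = Q.lam ^ l * ∏ q, c q := by
      have h4 : ∀ q ∈ (univ : Finset (ZMod l)), A + Q.e q * (-B) = Q.lam * c q := by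
        intro q _
        rw [← hc q]; ring
      rw [prod_congr rfl h4, prod_mul_distrib, prod_const, card_univ, ZMod.card]
    rw [Q.prod_add, hodd.neg_pow] at h3
    rw [← h3]; ring
  have hcopJ : IsCoprime (J ^ l) (Ideal.span {Q.lam}) := S.copJ.pow_left
  have hN : l + 1 ≤ N := by
    have h1 : Ideal.span {Q.lam} ^ (l + 1) ∣ Ideal.span {Q.lam} ^ N * J ^ l := by
      rw [← S.eq, Ideal.span_singleton_pow, Ideal.dvd_iff_le,
        Ideal.span_singleton_le_span_singleton, hprodc, pow_succ]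
      exact mul_dvd_mul_left _ (hc0.trans (dvd_prod_of_mem _ (mem_univ (0 : ZMod l))))
    have h2 : Ideal.span {Q.lam} ^ (l + 1) ∣ Ideal.span {Q.lam} ^ N :=
      (hcopJ.symm.pow_left).dvd_of_dvd_mul_right h1
    exact (pow_dvd_pow_iff hlam0 hlamu).1 h2
  refine ⟨hN, ?_⟩
  have hprod : ∏ q, Ideal.span {c q} = Ideal.span {Q.lam} ^ (N - l) * J ^ l := by
    have h := S.eq
    rw [hprodc, ← Ideal.span_singleton_mul_span_singleton, ← Ideal.span_singleton_pow,
      ← Ideal.prod_span_singleton] at h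
    have h4 : N = l + (N - l) := by omega
    rw [h4, pow_add, mul_assoc] at h
    have h6 := mul_left_cancel₀ (pow_ne_zero l hlam0) h
    rw [h6]
  have hsplit : ∏ q, Ideal.span {c q} = Ideal.span {c 0} * ∏ q ∈ univ.erase (0 : ZMod l),
      Ideal.span {c q} := (mul_prod_erase univ _ (mem_univ (0 : ZMod l))).symm
  have hcoprest : IsCoprime (∏ q ∈ univ.erase (0 : ZMod l), Ideal.span {c q})
      (Ideal.span {Q.lam}) := by
    apply IsCoprime.prod_left
    intro q hq
    rw [Ideal.isCoprime_span_singleton_iff]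
    exact second1_coprime_lam Q (hcq q (mem_erase.1 hq).1)
  have hdvd0 : Ideal.span {Q.lam} ^ (N - l) ∣ Ideal.span {c 0} := by
    have h3 : Ideal.span {Q.lam} ^ (N - l) ∣ Ideal.span {c 0} *
        ∏ q ∈ univ.erase (0 : ZMod l), Ideal.span {c q} := by
      rw [← hsplit, hprod]
      exact Dvd.intro _ rfl
    exact (hcoprest.symm.pow_left).dvd_of_dvd_mul_right h3
  obtain ⟨d0, hd0⟩ : Q.lam ^ (N - l) ∣ c 0 := by
    rw [Ideal.span_singleton_pow, Ideal.dvd_iff_le, Ideal.span_singleton_le_span_singleton]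
      at hdvd0
    exact hdvd0
  -- the modified factors
  set d : ZMod l → R := fun q => if q = 0 then d0 else c q with hd
  have hdz : d 0 = d0 := by rw [hd]; exact if_pos rfl
  have hdq : ∀ q : ZMod l, q ≠ 0 → d q = c q := fun q hq => by
    rw [hd]; exact if_neg hq
  have hddvd : ∀ q : ZMod l, d q ∣ c q := by
    intro q
    by_cases hq : q = 0
    · rw [hq, hdz, hd0]; exact Dvd.intro_left _ rfl
    · rw [hdq q hq]
  have hdcop : ∀ q r : ZMod l, q ≠ r → IsCoprime (d q) (d r) := fun q r hqr =>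
    ((hcop q r hqr).of_isCoprime_of_dvd_left (hddvd q)).of_isCoprime_of_dvd_right (hddvd r)
  have hIcop : ∀ q ∈ (univ : Finset (ZMod l)), ∀ r ∈ (univ : Finset (ZMod l)), q ≠ r →
      IsCoprime (Ideal.span {d q}) (Ideal.span {d r}) := by
    intro q _ r _ hqr
    rw [Ideal.isCoprime_span_singleton_iff]
    exact hdcop q r hqr
  have hIprod : ∏ q, Ideal.span {d q} = 1 ^ 0 * J ^ l := by
    have h3 : ∏ q, Ideal.span {d q} = Ideal.span {d0} * ∏ q ∈ univ.erase (0 : ZMod l),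
        Ideal.span {c q} := by
      rw [← mul_prod_erase univ _ (mem_univ (0 : ZMod l)), hdz]
      congr 1
      exact prod_congr rfl (fun q hq => by rw [hdq q (mem_erase.1 hq).1])
    rw [h3, pow_zero, one_mul]
    apply mul_left_cancel₀ (pow_ne_zero (N - l) hlam0)
    rw [← mul_assoc, Ideal.span_singleton_pow, Ideal.span_singleton_mul_span_singleton, ← hd0,
      ← hsplit, hprod, Ideal.span_singleton_pow]
  obtain ⟨A', C, hAB, -, hC⟩ := ideal_split univ ⟨0, mem_univ _⟩ (fun q => Ideal.span {d q})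
    hIcop one_ne_zero (second1_ne_zero Q S.copJ) hIprod
  have hCd : ∀ q, Ideal.span {d q} = C q ^ l := by
    intro q
    have := hAB q (mem_univ _)
    rw [pow_zero, one_mul] at this
    exact this
  have hCprinc : ∀ q, ∃ V, C q = Ideal.span {V} := by
    intro q
    have h1 : (C q ^ l).IsPrincipal := ⟨⟨d q, by rw [← hCd q]⟩⟩
    obtain ⟨⟨V, hV⟩⟩ := Q.princ _ h1
    exact ⟨V, hV⟩
  choose V hV using hCprinc
  have hassoc : ∀ q, ∃ u : Rˣ, d q = u * V q ^ l := by
    intro q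
    have h1 := hCd q
    rw [hV q, Ideal.span_singleton_pow, Ideal.span_singleton_eq_span_singleton] at h1
    obtain ⟨u, hu⟩ := h1.symm
    exact ⟨u, by rw [← hu]; ring⟩
  choose w hw using hassoc
  have hone : ∀ t : ZMod l, ∃ x : Rˣ, t ≠ 0 → Q.lam = (1 - Q.e t) * x := by
    intro t
    by_cases ht : t = 0
    · exact ⟨1, fun h => absurd ht h⟩
    · obtain ⟨x, hx⟩ := (Q.assoc_one_sub ht).symm
      exact ⟨x, fun _ => hx.symm⟩
  choose x hx using hone
  have hVd : ∀ q, V q ∣ d q := fun q => by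
    rw [hw q]
    exact (dvd_pow_self _ (by omega)).mul_left _
  refine ⟨fun t => if t = 0 then w 0 else x t * w t, V, ?_, ?_, ?_, ?_⟩
  · intro t ht
    simp only [if_neg ht]
    rw [hc t, ← hdq t ht, hw t, Units.val_mul]
    calc Q.lam * (w t * V t ^ l) = ((1 - Q.e t) * x t) * (w t * V t ^ l) := by rw [← hx t ht]
      _ = _ := by ring
  · simp only [if_true]
    have h3 := hc 0
    rw [Q.e_zero, one_mul] at h3
    rw [h3, hd0, ← hdz, hw 0, pow_succ]
    ring
  · intro t ht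
    apply second1_not_dvd Q S.copJ
    rw [← hC]
    refine dvd_trans ?_ (dvd_prod_of_mem C (mem_univ t))
    rw [hV t, Ideal.dvd_iff_le, Ideal.span_singleton_le_span_singleton]
    exact ht
  · intro t r htr
    exact ((hdcop t r htr).of_isCoprime_of_dvd_left (hVd t)).of_isCoprime_of_dvd_right (hVd r)

/-- the valuation of `A - B` -/
theorem state_val (Q : Cyc l R) {A B : R} {N : ℕ} {J : Ideal R} (S : State Q A B N J) :
    Q.lam ^ (N - l + 1) ∣ A - B ∧ ¬ Q.lam ^ (N - l + 2) ∣ A - B := by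
  obtain ⟨-, u, V, -, h, hV, -⟩ := state_fac Q S
  constructor
  · rw [h, mul_assoc]
    exact Dvd.intro _ rfl
  · intro h1
    rw [h, mul_assoc, show N - l + 2 = (N - l + 1) + 1 by ring, pow_succ] at h1
    have h2 := (mul_dvd_mul_iff_left (pow_ne_zero _ Q.lam_ne_zero)).1 h1
    have h3 := (Units.dvd_mul_left).1 h2
    exact hV 0 (Q.prime_lam.dvd_of_dvd_pow h3)

end AER
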