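import Pool.Agent.Lib_MP_aeefb1_pn.PFac
import Pool.Agent.Lib_MP_aeefb1_pn.PDefs
import Pool.Agent.Lib_MP_aeefb1_reg.NormLog

/-!
MP_aeefb1_nt, `p = l`: the unit `(1 - z)/(1 - z^t)` and the quotient `ρ'`.
-/

open Finset

namespace AER

variable {l : ℕ} [hlp : Fact l.Prime] {R : Type} [CommRing R] [IsDedekindDomain R]
  [CharZero R] [Module.Free ℤ R] [Module.Finite ℤ R]

/-- `H = (1 - z)/(1 - z^t)` and a polynomial for it.
Proof.  `Q.assoc_one_sub` gives the unit `H`; `Q.exists_int`, `Q.rep_exists` give `P`.  The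
polynomial `(1 - T^t) P - (1 - T)` vanishes at `z` and at `1`, so (`Q.rep_dvd_iff'`, `m = l`)
`(1 - Ex^t) rho P ≡ 1 - Ex` modulo `X^l`, `Ex^t ≡ rescale t Ex` (`Ex_pow`); divide by `-X`
(`X_mul_Eq`, `X_mul_E1`). -/
theorem exists_H (Q : Cyc l R) {t : ZMod l} (ht : t ≠ 0) :
    ∃ (H : R) (P : Polynomial ℤ), (1 - Q.e t) * H = Q.lam ∧ Polynomial.aeval Q.z P = H ∧
      (PowerSeries.X : PowerSeries (ZMod l)) ^ (l - 1) ∣ Eq l t * rho l P - E1 l := by
  have hl := Q.five_le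
  obtain ⟨H, hH⟩ := (Q.assoc_one_sub ht).symm.dvd
  obtain ⟨m, hm⟩ := Q.exists_int H
  obtain ⟨P, hP, -⟩ := Q.rep_exists hm
  refine ⟨H, P, hH.symm, hP, ?_⟩
  have h1 := (Q.rep_dvd_iff' (P := (1 - Polynomial.X ^ t.val) * P - (1 - Polynomial.X))
    (by simp) (le_refl l)).1 (by
      have h2 : Polynomial.aeval Q.z ((1 - Polynomial.X ^ t.val) * P - (1 - Polynomial.X)) = 0 := by
        rw [map_sub, map_mul, map_sub, map_sub, map_one, map_pow, Polynomial.aeval_X, hP]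
        have h3 : (1 - Q.z ^ t.val) * H = Q.lam := hH.symm
        rw [h3, Cyc.lam_def, sub_self]
      rw [h2]
      exact dvd_zero _)
  rw [map_sub, map_mul, map_sub, map_sub, map_one, map_pow, rho_X] at h1
  have h2 := Ex_pow l t.val
  rw [ZMod.natCast_zmod_val] at h2
  have h3 : (PowerSeries.X : PowerSeries (ZMod l)) ^ l ∣
      (1 - PowerSeries.rescale t (Ex l)) * rho l P - (1 - Ex l) := by
    have e : (1 - PowerSeries.rescale t (Ex l)) * rho l P - (1 - Ex l) =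
        ((1 - Ex l ^ t.val) * rho l P - (1 - Ex l)) +
          (Ex l ^ t.val - PowerSeries.rescale t (Ex l)) * rho l P := by ring
    rw [e]
    exact dvd_add h1 (h2.mul_right _)
  have h4 := X_mul_Eq l t
  have h5 := X_mul_E1 l
  have e2 : (1 - PowerSeries.rescale t (Ex l)) * rho l P - (1 - Ex l) =
      PowerSeries.X * -(Eq l t * rho l P - E1 l) := by
    linear_combination (rho l P) * h4 - h5
  have hpw : (PowerSeries.X : PowerSeries (ZMod l)) ^ l = PowerSeries.X * PowerSeries.X ^ (l - 1) := by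
    rw [← pow_succ']
    congr 1
    omega
  rw [e2, hpw] at h3
  have h6 := (mul_dvd_mul_iff_left (PowerSeries.X_ne_zero (R := ZMod l))).1 h3
  exact (dvd_neg).1 h6

/-- The quotient `ρ'` with `A - B ≡ λ B ρ'`, with its exact valuation and a polynomial.
(`state_val`; `B` is invertible modulo powers of `λ`: `Q.exists_inv` in
Lib_MP_aeefb1_reg/Tser.lean; `N - l ≥ 1` by `state_fac`; `Q.rep_exists` with `n = 0`.) -/
theorem exists_rho (Q : Cyc l R) {A B : R} {N : ℕ} {J : Ideal R} (S : State Q A B N J)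
    (hN : N ≤ 3 * l) : ∃ (ρ' : R) (P : Polynomial ℤ),
      Q.lam ^ (3 * l) ∣ Q.lam * B * ρ' - (A - B) ∧ Polynomial.aeval Q.z P = ρ' ∧
      P.eval 1 = 0 ∧ Q.lam ^ (N - l) ∣ ρ' ∧ ¬ Q.lam ^ (N - l + 1) ∣ ρ' := by
  have hl := Q.five_le
  obtain ⟨hN1, -⟩ := state_fac Q S
  obtain ⟨⟨c, hc⟩, hv⟩ := state_val Q S
  have hB : ¬ Q.lam ∣ B := by
    intro hB
    apply S.nd
    have h1 : A = (A - B) + B := by ring
    rw [h1]
    exact dvd_add ((dvd_pow_self Q.lam two_ne_zero).trans S.cg) hB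
  obtain ⟨y, hy⟩ := Q.exists_inv hB (3 * l)
  have hdvd : Q.lam ^ (N - l) ∣ y * (Q.lam ^ (N - l) * c) :=
    (dvd_mul_right _ _).mul_left _
  have h0 : Q.lam ∣ y * (Q.lam ^ (N - l) * c) - ((0 : ℤ) : R) := by
    rw [Int.cast_zero, sub_zero]
    exact (dvd_pow_self Q.lam (by omega)).trans hdvd
  obtain ⟨P, hP, hP1⟩ := Q.rep_exists h0
  have hmain : Q.lam ^ (3 * l) ∣ Q.lam * B * (y * (Q.lam ^ (N - l) * c)) - (A - B) := by
    have e : Q.lam * B * (y * (Q.lam ^ (N - l) * c)) - (A - B) =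
        (B * y - 1) * (Q.lam ^ (N - l + 1) * c) := by
      rw [hc]
      ring
    rw [e]
    exact hy.mul_right _
  refine ⟨y * (Q.lam ^ (N - l) * c), P, hmain, hP, hP1, hdvd, ?_⟩
  intro hcon
  apply hv
  have h1 : Q.lam ^ (N - l + 2) ∣ Q.lam * B * (y * (Q.lam ^ (N - l) * c)) := by
    rw [show N - l + 2 = (N - l + 1) + 1 by omega, pow_succ', mul_assoc]
    exact mul_dvd_mul_left _ (hcon.mul_left _)
  have h2 := (pow_dvd_pow Q.lam (show N - l + 2 ≤ 3 * l by omega)).trans hmain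
  have h3 := dvd_sub h1 h2
  rwa [sub_sub_cancel] at h3

end AER
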