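import Pool.Agent.Lib_MP_aeefb1_pn.PFac
import Pool.Agent.Lib_MP_aeefb1_pn.PDefs
import Pool.Agent.Lib_MP_aeefb1_reg.Rep
import Pool.Agent.Lib_MP_aeefb1_reg.Elem

/-!
MP_aeefb1_nt, `p = l`: parity.  For a real state, `v(A - B)` is even and at least `l + 1`.

The quotient `T = (A - z^t B)/(1 - z^t)` is an `l`-th power times a unit, so `z^a T` is real
modulo `l` for some `a` (`par_twist`).  If `v(A - B) ≥ 4` this gives `a = 0` for `t = 1`, so
`T ≡ conj T` modulo `l` and `v(A - B) ≥ l` (`par_b`).  If `v(A - B) = 2` one compares the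
expansions modulo `λ^4` for `t = 1, 2, 3` (`par_alg`).
-/

open Finset

namespace AER

section alg

open PowerSeries

variable {l : ℕ} [hlp : Fact l.Prime]

/-- one value of `t` -/
theorem par_alg_one (h7 : 7 ≤ l) {β δ τ : PowerSeries (ZMod l)} {t a : ZMod l} (ht : t ≠ 0)
    (hb1 : coeff 1 β = 0) (hb3 : coeff 3 β = 0) (hd1 : coeff 1 δ = 0)
    (hd3 : coeff 3 δ = 0)
    (h1 : X ^ (l - 1) ∣ δ + X * Eq l t * (τ - β))
    (h2 : X ^ (l - 1) ∣ rescale a (Ex l) * τ - rescale (-1) (rescale a (Ex l) * τ)) :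
    coeff 0 β ^ 2 * (12 * coeff 4 δ * t ^ 2 + coeff 2 δ * t ^ 4) + 4 * coeff 2 δ ^ 3
      = coeff 0 β * coeff 2 δ * (12 * coeff 2 β + 6 * coeff 2 δ) * t ^ 2 := by
  have n2 : (2 : ZMod l) ≠ 0 := by
    have := natCast_ne_zero' l (n := 2) (by norm_num) (by omega)
    exact_mod_cast this
  have n3 : (3 : ZMod l) ≠ 0 := by
    have := natCast_ne_zero' l (n := 3) (by norm_num) (by omega)
    exact_mod_cast this
  have i2 : (2 : ZMod l) * 2⁻¹ = 1 := mul_inv_cancel₀ n2
  have i3 : (3 : ZMod l) * 3⁻¹ = 1 := mul_inv_cancel₀ n3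
  have hE : ∀ n, coeff n (Eq l t) = t ^ (n + 1) * (((n + 1).factorial : ℕ) : ZMod l)⁻¹ := by
    intro n
    rw [Eq, coeff_C_mul, coeff_rescale, E1, coeff_mk]
    ring
  rw [X_pow_dvd_iff] at h1 h2
  have g : ∀ k, k + 1 < l - 1 → coeff (k + 1) δ + ∑ i ∈ Finset.range (k + 1),
      t ^ (i + 1) * (((i + 1).factorial : ℕ) : ZMod l)⁻¹ * (coeff (k - i) τ - coeff (k - i) β)
        = 0 := by
    intro k hk
    have := h1 (k + 1) hk
    rw [map_add, mul_assoc, coeff_succ_X_mul, coeff_mul,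
      Finset.Nat.sum_antidiagonal_eq_sum_range_succ_mk] at this
    simpa only [hE, map_sub] using this
  have g0 := g 0 (by omega)
  have g1 := g 1 (by omega)
  have g2 := g 2 (by omega)
  have g3 := g 3 (by omega)
  have f : ∀ m, m < l - 1 → Odd m → ∑ i ∈ Finset.range (m + 1),
      a ^ i * ((i.factorial : ℕ) : ZMod l)⁻¹ * coeff (m - i) τ = 0 := by
    intro m hm ho
    have := h2 m hm
    rw [map_sub, coeff_rescale, ho.neg_one_pow, coeff_mul,
      Finset.Nat.sum_antidiagonal_eq_sum_range_succ_mk] at this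
    simp only [coeff_rescale, coeff_Ex] at this
    have h3 : (2 : ZMod l) * ∑ i ∈ Finset.range (m + 1),
      a ^ i * ((i.factorial : ℕ) : ZMod l)⁻¹ * coeff (m - i) τ = 0 := by
      linear_combination this
    exact (mul_eq_zero.1 h3).resolve_left n2
  have f1 := f 1 (by omega) (by decide)
  have f3 := f 3 (by omega) (by decide)
  simp only [Finset.sum_range_succ, Finset.sum_range_zero, zero_add, Nat.factorial, hb1, hb3, hd1,
    hd3, Nat.sub_zero, Nat.sub_self, pow_zero, one_mul, pow_one] at g0 g1 g2 g3 f1 f3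
  norm_num at g0 g1 g2 g3 f1 f3
  have n6 : (6 : ZMod l) ≠ 0 := by
    have e : (6 : ZMod l) = 2 * 3 := by norm_num
    rw [e]
    exact mul_ne_zero n2 n3
  have i6 : (6 : ZMod l) * 6⁻¹ = 1 := mul_inv_cancel₀ n6
  have c0 : constantCoeff τ = constantCoeff β := sub_eq_zero.1 (g0.resolve_left ht)
  rw [c0, sub_self, mul_zero] at g1 g2 g3
  rw [c0] at f1 f3
  have k2 : 2 * (coeff 2 τ - coeff 2 β) + t * coeff 1 τ = 0 := by
    have : t * (2 * (coeff 2 τ - coeff 2 β) + t * coeff 1 τ) = 0 := by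
      linear_combination 2 * g2 - t ^ 2 * coeff 1 τ * i2
    exact (mul_eq_zero.1 this).resolve_left ht
  have hx1 : coeff 1 τ = - (a * constantCoeff β) := by linear_combination f1
  have hd2 : coeff 2 δ = t * (a * constantCoeff β) := by linear_combination g1 - t * hx1
  have hb2 : 2 * coeff 2 β = 2 * coeff 2 τ - coeff 2 δ := by linear_combination g1 - k2
  have hd4 : 12 * coeff 4 δ = - 12 * t * coeff 3 τ - t ^ 2 * coeff 2 δ := by
    have e : 12 * coeff 4 δ + 12 * t * coeff 3 τ + 6 * t ^ 2 * (coeff 2 τ - coeff 2 β)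
        + 2 * t ^ 3 * coeff 1 τ = 0 := by
      linear_combination 12 * g3 - 6 * t ^ 2 * (coeff 2 τ - coeff 2 β) * i2
        - 2 * t ^ 3 * coeff 1 τ * i6
    linear_combination e - 3 * t ^ 2 * k2 + t ^ 2 * g1
  have hK : 6 * coeff 3 τ + 6 * a * coeff 2 τ - 2 * a ^ 3 * constantCoeff β = 0 := by
    have e : 6 * coeff 3 τ + 6 * a * coeff 2 τ + 3 * a ^ 2 * coeff 1 τ
        + a ^ 3 * constantCoeff β = 0 := by
      linear_combination 6 * f3 - 3 * a ^ 2 * coeff 1 τ * i2 - a ^ 3 * constantCoeff β * i6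
    linear_combination e - 3 * a ^ 2 * hx1
  rw [coeff_zero_eq_constantCoeff_apply]
  rw [hd2] at hb2 hd4 ⊢
  linear_combination (constantCoeff β ^ 2 * t ^ 2) * hd4
    - 6 * constantCoeff β * (t * (a * constantCoeff β)) * t ^ 2 * hb2
    - 2 * t ^ 3 * constantCoeff β ^ 2 * hK

/-- three values of `t` -/
theorem par_alg (h7 : 7 ≤ l) {b0 b2 d2 d4 : ZMod l} (hb0 : b0 ≠ 0)
    (h : ∀ t : ZMod l, t ≠ 0 → b0 ^ 2 * (12 * d4 * t ^ 2 + d2 * t ^ 4) + 4 * d2 ^ 3
      = b0 * d2 * (12 * b2 + 6 * d2) * t ^ 2) : d2 = 0 := by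
  have n1 : ∀ n : ℕ, n ≠ 0 → n < 7 → (n : ZMod l) ≠ 0 := fun n h0 hn =>
    natCast_ne_zero' l h0 (by omega)
  have n2 : (2 : ZMod l) ≠ 0 := by have := n1 2 (by norm_num) (by norm_num); exact_mod_cast this
  have n3 : (3 : ZMod l) ≠ 0 := by have := n1 3 (by norm_num) (by norm_num); exact_mod_cast this
  have n5 : (5 : ZMod l) ≠ 0 := by have := n1 5 (by norm_num) (by norm_num); exact_mod_cast this
  have h1 := h 1 one_ne_zero
  have h2 := h 2 n2
  have h3 := h 3 n3
  -- `P(t) = e t^4 + c t^2 + f`, `c = 0` and `e = 0`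
  have e0 : (2 * 2 * 2 * 3 * 5 : ZMod l) * (b0 ^ 2 * d2) = 0 := by
    linear_combination 3 * (h3 - h1) - 8 * (h2 - h1)
  have n : (2 * 2 * 2 * 3 * 5 : ZMod l) ≠ 0 :=
    mul_ne_zero (mul_ne_zero (mul_ne_zero (mul_ne_zero n2 n2) n2) n3) n5
  rcases mul_eq_zero.1 e0 with h4 | h4
  · exact absurd h4 n
  · exact (mul_eq_zero.1 h4).resolve_left (pow_ne_zero 2 hb0)

end alg

variable {l : ℕ} [hlp : Fact l.Prime] {R : Type} [CommRing R] [IsDedekindDomain R]
  [CharZero R] [Module.Free ℤ R] [Module.Finite ℤ R]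

/-- `z^a T` is real modulo `l` -/
theorem par_twist (Q : Cyc l R) {A B : R} {N : ℕ} {J : Ideal R} (S : State Q A B N J)
    {t : ZMod l} (ht : t ≠ 0) {T : R} (hT : A - Q.e t * B = (1 - Q.e t) * T) :
    ∃ a : ZMod l, (l : R) ∣ Q.e a * T - Q.conj (Q.e a * T) := by
  obtain ⟨-, u, V, h1, -, -, -⟩ := state_fac Q S
  have h0 : (1 - Q.e t) ≠ 0 := by
    intro h
    exact Q.lam_ne_zero (((Q.assoc_one_sub ht).eq_zero_iff).2 h)
  have hTV : T = u t * V t ^ l := by
    apply mul_left_cancel₀ h0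
    rw [← hT, h1 t ht]
    ring
  obtain ⟨i, hi⟩ := Q.unit_real (u t)
  obtain ⟨m, hm, -⟩ := Q.pow_l_int (V t)
  obtain ⟨m', hm'⟩ := hm
  have hi' : Q.conj (Q.e (i : ZMod l) * u t) = Q.e (i : ZMod l) * u t := by
    rw [← Q.z_pow]
    exact hi
  refine ⟨(i : ZMod l), ?_⟩
  have e1 : Q.e (i : ZMod l) * T = (Q.e (i : ZMod l) * u t) * V t ^ l := by rw [hTV]; ring
  have e2 : V t ^ l = m + l * m' := by linear_combination hm'
  rw [e1, map_mul, hi', e2, map_add, map_mul, map_intCast, map_natCast]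
  exact ⟨Q.e (i : ZMod l) * u t * (m' - Q.conj m'), by ring⟩

theorem par_b (Q : Cyc l R) {A B : R} {N : ℕ} {J : Ideal R} (S : State Q A B N J)
    (hA : Q.conj A = A) (hB : Q.conj B = B) (h4 : Q.lam ^ 4 ∣ A - B) : Q.lam ^ l ∣ A - B := by
  have h5 := Q.five_le
  obtain ⟨y, hy⟩ := h4
  -- `T`
  have hT : A - Q.e 1 * B = (1 - Q.e 1) * (B + Q.lam ^ 3 * y) := by
    have e : (1 - Q.e 1) = Q.lam := by rw [Q.e_one, Cyc.lam_def]
    rw [e]
    have e2 : Q.e 1 = 1 - Q.lam := by rw [Q.e_one, Cyc.lam_def]; ring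
    rw [e2]
    linear_combination hy
  obtain ⟨a, ha⟩ := par_twist Q S one_ne_zero hT
  have hBl : ¬ Q.lam ∣ B := by
    intro h
    apply S.nd
    have h1 : Q.lam ∣ A - B := (dvd_pow_self _ (by norm_num)).trans S.cg
    have e : A = (A - B) + B := by ring
    rw [e]
    exact dvd_add h1 h
  have hconj3 : Q.lam ^ 3 ∣ Q.conj (Q.lam ^ 3 * y) :=
    Q.σ_dvd Cyc.neg_one_ne_zero' (dvd_mul_right _ _)
  have ha' : Q.lam ^ (l - 1) ∣ Q.e a * (B + Q.lam ^ 3 * y)
      - Q.e (-a) * (B + Q.conj (Q.lam ^ 3 * y)) := by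
    have := Q.lam_pow_dvd_l.trans ha
    rwa [map_mul, map_add, hB, Q.conj_e] at this
  have h3 : Q.lam ^ 3 ∣ (Q.e a - Q.e (-a)) * B := by
    have e : (Q.e a - Q.e (-a)) * B = (Q.e a * (B + Q.lam ^ 3 * y)
        - Q.e (-a) * (B + Q.conj (Q.lam ^ 3 * y))) - Q.e a * (Q.lam ^ 3 * y)
        + Q.e (-a) * Q.conj (Q.lam ^ 3 * y) := by ring
    rw [e]
    refine dvd_add (dvd_sub ((pow_dvd_pow _ (by omega)).trans ha') ?_) (hconj3.mul_left _)
    exact (dvd_mul_right _ _).mul_left _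
  have ha0 : a = 0 := by
    by_contra hne
    have hne' : a ≠ -a := by
      intro h
      have h6 : (2 : ZMod l) * a = 0 := by linear_combination h
      rcases mul_eq_zero.1 h6 with h7 | h7
      · have h8 : ((2 : ℕ) : ZMod l) = 0 := by push_cast; exact h7
        rw [ZMod.natCast_eq_zero_iff] at h8
        have := Nat.le_of_dvd (by norm_num) h8
        omega
      · exact hne h7
    obtain ⟨w, hw⟩ := Q.assoc_sub hne'
    rw [← hw, mul_assoc, pow_succ', mul_dvd_mul_iff_left Q.lam_ne_zero] at h3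
    have h9 : Q.lam ∣ w * B := (dvd_pow_self _ (by norm_num)).trans h3
    rcases Q.prime_lam.dvd_or_dvd h9 with h10 | h10
    · exact Q.not_isUnit_lam (isUnit_of_dvd_unit h10 w.isUnit)
    · exact hBl h10
  rw [ha0, neg_zero, Q.e_zero, one_mul, one_mul] at ha'
  have h8 : Q.lam ^ (l - 1) ∣ Q.lam ^ 3 * y - Q.conj (Q.lam ^ 3 * y) := by
    have e : Q.lam ^ 3 * y - Q.conj (Q.lam ^ 3 * y)
        = (B + Q.lam ^ 3 * y) - (B + Q.conj (Q.lam ^ 3 * y)) := by ring
    rw [e]
    exact ha'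
  -- `λ (T - conj T) = (A - B)(1 + z)`
  have h9 : Q.conj Q.lam * Q.conj (Q.lam ^ 3 * y) = A - B := by
    rw [← map_mul]
    have e : Q.lam * (Q.lam ^ 3 * y) = A - B := by rw [hy]; ring
    rw [e, map_sub, hA, hB]
  have h10 : Q.lam * (Q.lam ^ 3 * y - Q.conj (Q.lam ^ 3 * y)) = (A - B) * (1 + Q.e 1) := by
    rw [Q.conj_lam] at h9
    have e3 := Q.e_neg_mul 1
    have e : Q.lam * (Q.lam ^ 3 * y) = A - B := by rw [hy]; ring
    linear_combination e + Q.e 1 * h9 + (Q.lam * Q.conj (Q.lam ^ 3 * y)) * e3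
  obtain ⟨w, hw⟩ := Q.isUnit_one_add (a := 1) one_ne_zero
  have h11 : Q.lam ^ l ∣ (A - B) * w := by
    rw [hw, ← h10]
    have e : Q.lam ^ l = Q.lam * Q.lam ^ (l - 1) := by
      rw [← pow_succ', Nat.sub_add_cancel (by omega)]
    rw [e]
    exact mul_dvd_mul_left _ h8
  exact (Units.dvd_mul_right).1 h11

theorem par_even (Q : Cyc l R) {P : Polynomial ℤ}
    (h : Q.conj (Polynomial.aeval Q.z P) = Polynomial.aeval Q.z P) {m : ℕ} (hm : m < l - 1)
    (ho : Odd m) : PowerSeries.coeff m (rho l P) = 0 := by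
  obtain ⟨P', h1, h2⟩ := Q.rep_conj P
  have h3 : (PowerSeries.X : PowerSeries (ZMod l)) ^ (l - 1) ∣ rho l (P - P') := by
    rw [← Q.rep_dvd_iff le_rfl, map_sub, h1, h, sub_self]
    exact dvd_zero _
  rw [map_sub] at h3
  have h4 := coeff_eq_of_cg hm h3
  have h5 := coeff_eq_of_cg (show m < l by omega) h2
  rw [PowerSeries.coeff_rescale, ho.neg_one_pow] at h5
  have h6 : (2 : ZMod l) * PowerSeries.coeff m (rho l P) = 0 := by
    linear_combination h4 + h5
  have h7 := Q.five_le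
  have n2 : (2 : ZMod l) ≠ 0 := by
    have := natCast_ne_zero' l (n := 2) (by norm_num) (by omega)
    exact_mod_cast this
  exact (mul_eq_zero.1 h6).resolve_left n2

theorem par_c (Q : Cyc l R) (h7 : 7 ≤ l) {A B : R} {N : ℕ} {J : Ideal R}
    (S : State Q A B N J) (hA : Q.conj A = A) (hB : Q.conj B = B) : Q.lam ^ 4 ∣ A - B := by
  have hBl : ¬ Q.lam ∣ B := by
    intro h
    apply S.nd
    have h1 : Q.lam ∣ A - B := (dvd_pow_self _ (by norm_num)).trans S.cg
    have e : A = (A - B) + B := by ring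
    rw [e]
    exact dvd_add h1 h
  obtain ⟨nA, hnA⟩ := Q.exists_int A
  obtain ⟨nB, hnB⟩ := Q.exists_int B
  obtain ⟨PA, hPA, -⟩ := Q.rep_exists hnA
  obtain ⟨PB, hPB, -⟩ := Q.rep_exists hnB
  have eA : ∀ m, m < l - 1 → Odd m → PowerSeries.coeff m (rho l PA) = 0 := fun m hm ho =>
    par_even Q (by rw [hPA, hA]) hm ho
  have eB : ∀ m, m < l - 1 → Odd m → PowerSeries.coeff m (rho l PB) = 0 := fun m hm ho =>
    par_even Q (by rw [hPB, hB]) hm ho
  have hb0 : PowerSeries.coeff 0 (rho l PB) ≠ 0 := by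
    intro h
    apply hBl
    have h1 : Q.lam ^ 1 ∣ Polynomial.aeval Q.z PB := by
      rw [Q.rep_dvd_iff (by omega), PowerSeries.X_pow_dvd_iff]
      intro m hm
      obtain rfl : m = 0 := by omega
      exact h
    rw [hPB, pow_one] at h1
    exact h1
  obtain ⟨-, u, V, hfac, -, -, -⟩ := state_fac Q S
  have hd : PowerSeries.coeff 2 (rho l (PA - PB)) = 0 := by
    refine par_alg h7 hb0 (b2 := PowerSeries.coeff 2 (rho l PB))
      (d4 := PowerSeries.coeff 4 (rho l (PA - PB))) ?_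
    intro t ht
    obtain ⟨T, hT⟩ : ∃ T, T = (u t : R) * V t ^ l := ⟨_, rfl⟩
    have hT' : A - Q.e t * B = (1 - Q.e t) * T := by
      rw [hT, hfac t ht]; ring
    obtain ⟨a, ha⟩ := par_twist Q S ht hT'
    obtain ⟨nT, hnT⟩ := Q.exists_int T
    obtain ⟨PT, hPT, -⟩ := Q.rep_exists hnT
    refine par_alg_one h7 (τ := rho l PT) (a := a) ht (eB 1 (by omega) (by decide))
      (eB 3 (by omega) (by decide)) ?_ ?_ ?_ ?_
    · rw [map_sub, map_sub, eA 1 (by omega) (by decide), eB 1 (by omega) (by decide), sub_zero]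
    · rw [map_sub, map_sub, eA 3 (by omega) (by decide), eB 3 (by omega) (by decide), sub_zero]
    · have h1 : (PowerSeries.X : PowerSeries (ZMod l)) ^ (l - 1) ∣
          rho l ((PA - Polynomial.X ^ t.val * PB) - (1 - Polynomial.X ^ t.val) * PT) := by
        rw [← Q.rep_dvd_iff le_rfl]
        have e : Polynomial.aeval Q.z ((PA - Polynomial.X ^ t.val * PB)
            - (1 - Polynomial.X ^ t.val) * PT) = 0 := by
          rw [map_sub, map_sub, map_mul, map_mul, map_sub, map_pow, map_one, Polynomial.aeval_X,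
            hPA, hPB, hPT]
          have : Q.z ^ t.val = Q.e t := rfl
          rw [this, hT', sub_self]
        rw [e]
        exact dvd_zero _
      rw [map_sub, map_sub, map_mul, map_mul, map_sub, map_pow, map_one, rho_X] at h1
      have h2 := Ex_pow l t.val
      rw [ZMod.natCast_zmod_val] at h2
      have h3 : (PowerSeries.X : PowerSeries (ZMod l)) ^ (l - 1) ∣
          (Ex l ^ t.val - PowerSeries.rescale t (Ex l)) * (rho l PB - rho l PT) :=
        ((pow_dvd_pow _ (by omega)).trans h2).mul_right _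
      have e : rho l (PA - PB) + PowerSeries.X * Eq l t * (rho l PT - rho l PB)
          = (rho l PA - Ex l ^ t.val * rho l PB - (1 - Ex l ^ t.val) * rho l PT)
            + (Ex l ^ t.val - PowerSeries.rescale t (Ex l)) * (rho l PB - rho l PT) := by
        rw [X_mul_Eq, map_sub]
        ring
      rw [e]
      exact dvd_add h1 h3
    · obtain ⟨P', hP', hP''⟩ := Q.rep_conj (Polynomial.X ^ a.val * PT)
      have e1 : Polynomial.aeval Q.z (Polynomial.X ^ a.val * PT) = Q.e a * T := by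
        rw [map_mul, map_pow, Polynomial.aeval_X, hPT]
        rfl
      have h2 := Ex_pow l a.val
      rw [ZMod.natCast_zmod_val] at h2
      have c1 : (PowerSeries.X : PowerSeries (ZMod l)) ^ (l - 1) ∣
          PowerSeries.rescale a (Ex l) * rho l PT - rho l (Polynomial.X ^ a.val * PT) := by
        rw [map_mul, map_pow, rho_X]
        exact cg_mul (cg_symm (cg_of_le (by omega) h2)) (cg_refl _)
      have c2 : (PowerSeries.X : PowerSeries (ZMod l)) ^ (l - 1) ∣
          rho l (Polynomial.X ^ a.val * PT) - rho l P' := by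
        rw [← map_sub, ← Q.rep_dvd_iff le_rfl, map_sub, hP', e1]
        exact Q.lam_pow_dvd_l.trans ha
      have c3 := cg_of_le (show l - 1 ≤ l by omega) hP''
      have c4 := cg_rescale (-1) (cg_symm c1)
      exact cg_trans (cg_trans (cg_trans c1 c2) c3) c4
  have h4 : Q.lam ^ 4 ∣ Polynomial.aeval Q.z (PA - PB) := by
    rw [Q.rep_dvd_iff (by omega), PowerSeries.X_pow_dvd_iff]
    intro m hm
    have h2 : Q.lam ^ 2 ∣ Polynomial.aeval Q.z (PA - PB) := by
      rw [map_sub, hPA, hPB]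
      exact S.cg
    rw [Q.rep_dvd_iff (by omega), PowerSeries.X_pow_dvd_iff] at h2
    rcases (by omega : m < 2 ∨ m = 2 ∨ m = 3) with h | rfl | rfl
    · exact h2 m h
    · exact hd
    · rw [map_sub, map_sub, eA 3 (by omega) (by decide), eB 3 (by omega) (by decide), sub_zero]
  rw [map_sub, hPA, hPB] at h4
  exact h4

/-- for a real state, `v(A - B)` is even and at least `l + 1` -/
theorem parity (Q : Cyc l R) (h7 : 7 ≤ l) {A B : R} {N : ℕ} {J : Ideal R}
    (S : State Q A B N J) (hA : Q.conj A = A) (hB : Q.conj B = B) : 2 * l ≤ N ∧ Even N := by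
  have h1 := par_b Q S hA hB (par_c Q h7 S hA hB)
  obtain ⟨h2, h3⟩ := state_val Q S
  have h4 := (state_fac Q S).1
  have h5 : l < N - l + 2 := by
    by_contra h
    exact h3 ((pow_dvd_pow _ (by omega)).trans h1)
  have h6 : Even (N - l + 1) := by
    by_contra h
    rw [Nat.not_even_iff_odd] at h
    exact h3 (Q.real_val (by rw [map_sub, hA, hB]) h h2)
  have hlodd : Odd l := hlp.out.odd_of_ne_two (by omega)
  obtain ⟨a, ha⟩ := hlodd
  obtain ⟨b, hb⟩ := h6
  exact ⟨by omega, ⟨a + b, by omega⟩⟩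

end AER
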