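import Pool.Agent.Lib_MP_aeefb1_pn.PDefs
import Pool.Agent.Lib_MP_aeefb1_reg.Elem

/-!
MP_aeefb1_nt, `p = l`: the element `Λ'`.
-/

open Finset

namespace AER

variable {l : ℕ} [hlp : Fact l.Prime] {R : Type} [CommRing R] [IsDedekindDomain R]
  [CharZero R] [Module.Free ℤ R] [Module.Finite ℤ R]

/-- `Λ' = ∑ (binom(l,k)/l) λ^(k-1) ρ'^k = ((1 + λ ρ')^l - 1 - (λ ρ')^l)/(l λ)` -/
noncomputable def LamE (Q : Cyc l R) (ρ' : R) : R :=
  ∑ k ∈ Ico 1 l, ((l.choose k / l : ℕ) : R) * Q.lam ^ (k - 1) * ρ' ^ k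

theorem LamE_spec (Q : Cyc l R) (ρ' : R) :
    (1 + Q.lam * ρ') ^ l = 1 + l * (Q.lam * LamE Q ρ') + (Q.lam * ρ') ^ l := by
  have h5 := Q.five_le
  have h1 : (1 + Q.lam * ρ') ^ l =
      ∑ k ∈ range (l + 1), (Q.lam * ρ') ^ k * ((l.choose k : ℕ) : R) := by
    rw [add_comm, add_pow]
    refine sum_congr rfl fun k _ => ?_
    rw [one_pow, mul_one]
  have h2 : ∑ k ∈ range (l + 1), (Q.lam * ρ') ^ k * ((l.choose k : ℕ) : R) =
      1 + (∑ k ∈ Ico 1 l, (Q.lam * ρ') ^ k * ((l.choose k : ℕ) : R)) + (Q.lam * ρ') ^ l := by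
    rw [sum_range_succ, Nat.choose_self, Nat.cast_one, mul_one, range_eq_Ico,
      sum_eq_sum_Ico_succ_bot (by omega : 0 < l)]
    simp
  rw [h1, h2, LamE, mul_sum, mul_sum]
  congr 2
  refine sum_congr rfl fun k hk => ?_
  rw [mem_Ico] at hk
  have h3 : l * (l.choose k / l) = l.choose k :=
    Nat.mul_div_cancel' (hlp.out.dvd_choose_self (by omega) hk.2)
  have h4 : ((l.choose k : ℕ) : R) = (l : R) * ((l.choose k / l : ℕ) : R) := by
    rw [← Nat.cast_mul, h3]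
  obtain ⟨m, rfl⟩ : ∃ m, k = m + 1 := ⟨k - 1, by omega⟩
  rw [h4, Nat.add_sub_cancel, mul_pow, pow_succ Q.lam m]
  ring

include hlp in
private theorem PRelA_choose (k : ℕ) (hk : k < l) :
    (((l - 1).choose k : ℕ) : ZMod l) = (-1) ^ k := by
  have h2 := hlp.out.two_le
  induction k with
  | zero => simp
  | succ k ih =>
    have h1 : l.choose (k + 1) = (l - 1).choose k + (l - 1).choose (k + 1) := by
      obtain ⟨n, hn⟩ : ∃ n, l = n + 1 := ⟨l - 1, by omega⟩
      rw [hn, Nat.add_sub_cancel]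
      exact Nat.choose_succ_succ n k
    have h3 : ((l.choose (k + 1) : ℕ) : ZMod l) = 0 := by
      rw [ZMod.natCast_eq_zero_iff]
      exact hlp.out.dvd_choose_self (by omega) hk
    rw [h1, Nat.cast_add, ih (by omega)] at h3
    rw [pow_succ]
    linear_combination h3

include hlp in
private theorem PRelA_coef (k : ℕ) (hk1 : 1 ≤ k) (hk : k < l) :
    ((l.choose k / l : ℕ) : ZMod l) * (-1) ^ (k - 1) = (k : ZMod l)⁻¹ := by
  have h2 := hlp.out.two_le
  obtain ⟨m, rfl⟩ : ∃ m, k = m + 1 := ⟨k - 1, by omega⟩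
  rw [Nat.add_sub_cancel]
  have h3 : l * (l.choose (m + 1) / l) = l.choose (m + 1) :=
    Nat.mul_div_cancel' (hlp.out.dvd_choose_self (by omega) hk)
  have h4 : l * (l - 1).choose m = l.choose (m + 1) * (m + 1) := by
    obtain ⟨n, hn⟩ : ∃ n, l = n + 1 := ⟨l - 1, by omega⟩
    rw [hn, Nat.add_sub_cancel]
    exact Nat.add_one_mul_choose_eq n m
  have h5 : (l - 1).choose m = (l.choose (m + 1) / l) * (m + 1) := by
    have h6 : l * (l - 1).choose m = l * ((l.choose (m + 1) / l) * (m + 1)) := by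
      rw [h4, ← mul_assoc, h3]
    exact Nat.eq_of_mul_eq_mul_left (by omega) h6
  have h7 : (((l - 1).choose m : ℕ) : ZMod l) =
      ((l.choose (m + 1) / l : ℕ) : ZMod l) * ((m + 1 : ℕ) : ZMod l) := by
    rw [h5, Nat.cast_mul]
  rw [PRelA_choose m (by omega)] at h7
  have h8 : ((m + 1 : ℕ) : ZMod l) ≠ 0 := natCast_ne_zero' l (by omega) hk
  have h9 : ((-1 : ZMod l)) ^ m * (-1) ^ m = 1 := by
    rw [← mul_pow, neg_mul_neg, one_mul, one_pow]
  refine eq_inv_of_mul_eq_one_left ?_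
  linear_combination (-(-1 : ZMod l) ^ m) * h7 + h9

/-- The series of `E1 Λ'` is `LamS`.  (`rho` of `∑ (binom(l,k)/l) (1 - T)^(k-1) P^k`;
`1 - Ex = - X E1`, and `binom(l,k)/l = (-1)^(k-1)/k` in `ZMod l`.)  A polynomial for `Λ'`. -/
theorem LamE_series (Q : Cyc l R) {ρ' : R} {P : Polynomial ℤ}
    (hP : Polynomial.aeval Q.z P = ρ') (hP1 : P.eval 1 = 0) :
    ∃ P' : Polynomial ℤ, Polynomial.aeval Q.z P' = LamE Q ρ' ∧ P'.eval 1 = 0 ∧
      E1 l * rho l P' = LamS l (rho l P) := by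
  refine ⟨∑ k ∈ Ico 1 l, Polynomial.C ((l.choose k / l : ℕ) : ℤ) * (1 - Polynomial.X) ^ (k - 1) *
    P ^ k, ?_, ?_, ?_⟩
  · rw [map_sum, LamE]
    refine sum_congr rfl fun k _ => ?_
    rw [map_mul, map_mul, map_pow, map_pow, map_sub, map_one, Polynomial.aeval_X, hP,
      Polynomial.aeval_C, Q.lam_def, eq_intCast, Int.cast_natCast]
  · rw [Polynomial.eval_finsetSum]
    refine sum_eq_zero fun k hk => ?_
    rw [mem_Ico] at hk
    rw [Polynomial.eval_mul, Polynomial.eval_pow, hP1, zero_pow (by omega), mul_zero]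
  · rw [map_sum, mul_sum, LamS]
    refine sum_congr rfl fun k hk => ?_
    rw [mem_Ico] at hk
    have h1 : rho l (Polynomial.C ((l.choose k / l : ℕ) : ℤ) * (1 - Polynomial.X) ^ (k - 1) *
        P ^ k) = PowerSeries.C ((l.choose k / l : ℕ) : ZMod l) *
          (-(PowerSeries.X * E1 l)) ^ (k - 1) * rho l P ^ k := by
      rw [map_mul, map_mul, map_pow, map_pow, map_sub, map_one, rho_X, rho_C, X_mul_E1, neg_sub,
        Int.cast_natCast, map_natCast]
    rw [h1, ← PRelA_coef k hk.1 hk.2, map_mul, map_pow, map_neg, map_one, mul_pow _ _ k]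
    obtain ⟨m, rfl⟩ : ∃ m, k = m + 1 := ⟨k - 1, by omega⟩
    rw [Nat.add_sub_cancel, neg_pow, mul_pow PowerSeries.X (E1 l) m, pow_succ (E1 l) m]
    ring

/-- `h_j = (1 - z^j)/(1 - z) = ∑_{i<j} z^i` -/
theorem h_series (Q : Cyc l R) {j : ZMod l} (hj : j ≠ 0) :
    ∃ (h : R) (P : Polynomial ℤ), Q.lam * h = 1 - Q.e j ∧ Polynomial.aeval Q.z P = h ∧
      (PowerSeries.X : PowerSeries (ZMod l)) ^ (l - 1) ∣ E1 l * rho l P - Eq l j := by
  have h5 := Q.five_le
  have hgeo : ∀ {A : Type} [CommRing A] (x : A) (n : ℕ),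
      (1 - x) * ∑ i ∈ range n, x ^ i = 1 - x ^ n := fun x n => by
    have := mul_geom_sum x n
    linear_combination -this
  refine ⟨∑ i ∈ range j.val, Q.z ^ i, ∑ i ∈ range j.val, Polynomial.X ^ i, ?_, ?_, ?_⟩
  · rw [Q.lam_def, hgeo]
    rfl
  · rw [map_sum]
    refine sum_congr rfl fun i _ => ?_
    rw [map_pow, Polynomial.aeval_X]
  · have h1 : rho l (∑ i ∈ range j.val, Polynomial.X ^ i) = ∑ i ∈ range j.val, Ex l ^ i := by
      rw [map_sum]
      refine sum_congr rfl fun i _ => ?_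
      rw [map_pow, rho_X]
    have h2 := Ex_pow l j.val
    rw [ZMod.natCast_zmod_val] at h2
    have h3 : PowerSeries.X * (E1 l * rho l (∑ i ∈ range j.val, Polynomial.X ^ i) - Eq l j) =
        Ex l ^ j.val - PowerSeries.rescale j (Ex l) := by
      rw [h1, mul_sub, ← mul_assoc, X_mul_E1, X_mul_Eq]
      have h4 := hgeo (Ex l) j.val
      linear_combination -h4
    have hl1 : (PowerSeries.X : PowerSeries (ZMod l)) ^ l =
        PowerSeries.X * PowerSeries.X ^ (l - 1) := by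
      rw [← pow_succ']
      congr 1
      omega
    rw [← h3, hl1] at h2
    exact (mul_dvd_mul_iff_left PowerSeries.X_ne_zero).mp h2

end AER
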