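import Pool.Agent.Lib_MP_aeefb1_pn.PRelA
import Pool.Agent.Lib_MP_aeefb1_reg.Elem

/-!
MP_aeefb1_nt, `p = l`: how `ρ'` changes in one step, elements.
-/

open Finset

namespace AER

variable {l : ℕ} [hlp : Fact l.Prime] {R : Type} [CommRing R] [IsDedekindDomain R]
  [CharZero R] [Module.Free ℤ R] [Module.Finite ℤ R]

/-- Real pair `(A, B)` to conjugate pair `(C, C̄)`, elements.
Proof.  Put `ρ = λ ρ'`, `Λ = λ Λ'`.  `(1 + ρ) C̄ ≡ C` modulo `λ^(3l)` by `hρ`, so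
`(1 + ρ)^l (B - z^j A) ≡ A - z^j B` modulo `λ^(3l)` (conjugate `hC`), i.e. (`LamE_spec`)
`(l Λ + ρ^l) (B - z^j A) ≡ (A - B)(1 + z^j)`.  `B - z^j A = (1 - z^j) B - z^j (A - B)`.
Divide by `l` (`Q.dvd_of_dvd_l_mul`): modulo `λ^(l+2)`
`Λ (1 - z^j) B ≡ ((A - B)/l)(1 + z^j) ≡ λ^2 B v (1 + z^j)` (errors: `Λ (A - B)`, divisible by
`λ^(3l+2-2s)`; `ρ^l (…)/l`, divisible by `λ^(l (l-s+1) - l + 2)`; `λ^(3l)/l`).  Cancel `B` and
`λ^2`. -/
theorem relC_elem (Q : Cyc l R) {A B C v ρ' h : R} {η : Rˣ} {s : ℕ} (hs : s + 2 ≤ l)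
    (hA : Q.conj A = A) (hB : Q.conj B = B) (hη : Q.conj (η : R) = η) (hBl : ¬ Q.lam ∣ B)
    {j : ZMod l} (hj : j ≠ 0) (hC : A - Q.e j * B = (1 - Q.e j) * η * C ^ l)
    (hv : Q.lam ^ (3 * l) ∣ l * Q.lam ^ 2 * B * v - (A - B))
    (hρ : Q.lam ^ (3 * l) ∣ Q.lam * Q.conj C * ρ' - (C - Q.conj C))
    (hm : Q.lam ^ (l - s) ∣ ρ') (hvm : Q.lam ^ (l - s) ∣ v) (hh : Q.lam * h = 1 - Q.e j) :
    Q.lam ^ l ∣ LamE Q ρ' * h - v * (1 + Q.e j) := by
  have h5 := Q.five_le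
  have hAB : Q.lam ^ (l + 1) ∣ A - B := by
    have h1 : Q.lam ^ (l + 1) ∣ (l : R) * Q.lam ^ 2 * B * v := by
      have h0 : Q.lam ^ (l + 1) = Q.lam ^ (l - 1) * Q.lam ^ 2 := by
        rw [← pow_add]
        congr 1
        omega
      rw [h0]
      exact ((mul_dvd_mul_right Q.lam_pow_dvd_l _).mul_right _).mul_right _
    have h2 : Q.lam ^ (l + 1) ∣ (l : R) * Q.lam ^ 2 * B * v - (A - B) :=
      (pow_dvd_pow _ (by omega)).trans hv
    have h3 := dvd_sub h1 h2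
    rwa [sub_sub_cancel] at h3
  have hconj : B - Q.e j * A = (1 - Q.e j) * η * (Q.conj C) ^ l := by
    have h := congrArg Q.conj hC
    rw [map_sub, map_mul, hA, hB, Q.conj_e, map_mul, map_mul, map_sub, map_one, Q.conj_e, hη,
      map_pow] at h
    have h2 := Q.e_neg_mul j
    linear_combination (-(Q.e j)) * h + (η * (Q.conj C) ^ l - B) * h2
  have hpow : Q.lam ^ (3 * l) ∣ ((1 + Q.lam * ρ') * Q.conj C) ^ l - C ^ l := by
    have h : Q.lam ^ (3 * l) ∣ (1 + Q.lam * ρ') * Q.conj C - C := by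
      have h0 : (1 + Q.lam * ρ') * Q.conj C - C = Q.lam * Q.conj C * ρ' - (C - Q.conj C) := by
        ring
      rw [h0]
      exact hρ
    exact h.trans (sub_dvd_pow_sub_pow _ _ l)
  have hX : Q.lam ^ (3 * l) ∣ (1 + Q.lam * ρ') ^ l * (B - Q.e j * A) - (A - Q.e j * B) := by
    have h0 : (1 + Q.lam * ρ') ^ l * (B - Q.e j * A) - (A - Q.e j * B) =
        (1 - Q.e j) * η * (((1 + Q.lam * ρ') * Q.conj C) ^ l - C ^ l) := by
      rw [hconj, hC, mul_pow]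
      ring
    rw [h0]
    exact hpow.mul_left _
  rw [LamE_spec] at hX
  have hρl : Q.lam ^ (3 * l) ∣ (Q.lam * ρ') ^ l := by
    have h1 : Q.lam ^ 3 ∣ Q.lam * ρ' := by
      have h2 : Q.lam ^ 3 ∣ Q.lam * Q.lam ^ (l - s) := by
        rw [← pow_succ']
        exact pow_dvd_pow _ (by omega)
      exact h2.trans (mul_dvd_mul_left _ hm)
    rw [pow_mul]
    exact pow_dvd_pow_of_dvd h1 l
  have hl : Q.lam ^ (2 * l + 1) ∣ (l : R) * Q.lam * LamE Q ρ' * Q.e j * (A - B) := by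
    have h1 : Q.lam ^ l ∣ (l : R) * Q.lam := by
      have h0 : Q.lam ^ l = Q.lam ^ (l - 1) * Q.lam := by
        rw [← pow_succ]
        congr 1
        omega
      rw [h0]
      exact mul_dvd_mul_right Q.lam_pow_dvd_l _
    have h2 : Q.lam ^ (2 * l + 1) = Q.lam ^ l * Q.lam ^ (l + 1) := by
      rw [← pow_add]
      congr 1
      omega
    rw [h2]
    exact mul_dvd_mul ((h1.mul_right _).mul_right _) hAB
  have h3l : Q.lam ^ (2 * l + 1) ∣ Q.lam ^ (3 * l) := pow_dvd_pow _ (by omega)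
  have hmain : Q.lam ^ (l + 2 + (l - 1)) ∣
      (l : R) * (Q.lam ^ 2 * (B * (LamE Q ρ' * h - v * (1 + Q.e j)))) := by
    have h0 : (l : R) * (Q.lam ^ 2 * (B * (LamE Q ρ' * h - v * (1 + Q.e j)))) =
        ((1 + l * (Q.lam * LamE Q ρ') + (Q.lam * ρ') ^ l) * (B - Q.e j * A) - (A - Q.e j * B)) +
        (l : R) * Q.lam * LamE Q ρ' * Q.e j * (A - B) - (Q.lam * ρ') ^ l * (B - Q.e j * A) -
        (l * Q.lam ^ 2 * B * v - (A - B)) * (1 + Q.e j) := by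
      linear_combination ((l : R) * Q.lam * LamE Q ρ' * B) * hh
    rw [h0, show l + 2 + (l - 1) = 2 * l + 1 by omega]
    exact dvd_sub (dvd_sub (dvd_add (h3l.trans hX) hl) ((h3l.trans hρl).mul_right _))
      ((h3l.trans hv).mul_right _)
  have h6 := Q.dvd_of_dvd_l_mul hmain
  rw [show l + 2 = 2 + l by omega, pow_add] at h6
  have h7 := (mul_dvd_mul_iff_left (pow_ne_zero 2 Q.lam_ne_zero)).mp h6
  exact (Q.prime_lam.pow_dvd_of_dvd_mul_left l hBl h7)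

end AER
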