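import Pool.Agent.Lib_MP_aeefb1_pn.PUnit

/-!
MP_aeefb1_nt, `p = l`: the step `N ↦ N - l`, real to conjugate.
-/

open Finset

namespace AER

variable {l : ℕ} [hlp : Fact l.Prime] {R : Type} [CommRing R] [IsDedekindDomain R]
  [CharZero R] [Module.Free ℤ R] [Module.Finite ℤ R]

/-- From a real pair to conjugate pairs.
Proof.  `common_unit`.  For `j ≠ 0` twist `w_j` by a power of `z` (`Q.exists_normal`):
`C ≡ conj C` modulo `λ^2`, `C^l = w_j^l`.  Conjugating, `B - z^j A = (1 - z^j) η (conj C)^l`, so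
`(1 - z^j) η (C^l - (conj C)^l) = (A - B) (1 + z^j)`: ideal `(λ)^(N - l) (V)^l` (`1 + z^j` is a
unit, `1 - z^j` is associated to `λ`).  `C` and `conj C` are coprime: `conj C` is associated to
`w_(-j)` up to a unit: `(conj C)^l` and `w_(-j)^l` are both `(B - z^j A)/(..)` up to units. -/
theorem real_to_conj (Q : Cyc l R) {A B : R} {N : ℕ} {J : Ideal R} (S : State Q A B N J)
    (hA : Q.conj A = A) (hB : Q.conj B = B) (hN : 2 * l - 1 ≤ N) :
    ∃ (η : Rˣ) (J' : Ideal R), Q.conj (η : R) = η ∧ ∀ j, j ≠ 0 → ∃ C : R,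
      A - Q.e j * B = (1 - Q.e j) * η * C ^ l ∧ State Q C (Q.conj C) (N - l) J' := by
  have h5 := Q.five_le
  obtain ⟨η, w, hη, hw, hnd, hcop, u, V, hAB, hV⟩ :=
    common_unit Q S hN (by rw [hB, sub_self]; exact dvd_zero _)
  refine ⟨η, Ideal.span {V}, hη, fun j hj => ?_⟩
  have hj2 : j ≠ -j := by
    intro h
    have h2 : (2 : ZMod l) * j = 0 := by linear_combination h
    rcases mul_eq_zero.1 h2 with h3 | h3
    · have h' : ((2 : ℕ) : ZMod l) = 0 := by exact_mod_cast h3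
      rw [ZMod.natCast_eq_zero_iff] at h'
      have := Nat.le_of_dvd (by norm_num) h'
      omega
    · exact hj h3
  have hj' : -j ≠ 0 := neg_ne_zero.2 hj
  obtain ⟨a, ha⟩ := Q.exists_normal (hnd j hj)
  obtain ⟨C, hC⟩ : ∃ C, C = Q.e a * w j := ⟨_, rfl⟩
  rw [← hC] at ha
  have hCl : C ^ l = w j ^ l := by
    rw [hC, mul_pow, Q.e_pow, CharP.cast_eq_zero, zero_mul, Q.e_zero, one_mul]
  have e1 : A - Q.e j * B = (1 - Q.e j) * η * C ^ l := by rw [hCl]; exact hw j hj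
  have e2 : A - Q.e (-j) * B = (1 - Q.e (-j)) * η * Q.conj C ^ l := by
    have h := congrArg Q.conj e1
    rwa [map_sub, map_mul, hA, hB, Q.conj_e, map_mul, map_mul, map_sub, map_one, Q.conj_e, hη,
      map_pow] at h
  have e3 : B - Q.e j * A = (1 - Q.e j) * η * Q.conj C ^ l := by
    linear_combination (-Q.e j) * e2 + ((η : R) * Q.conj C ^ l - B) * Q.e_neg_mul j
  have hne : (1 - Q.e (-j)) * (η : R) ≠ 0 := by
    refine mul_ne_zero ?_ η.ne_zero
    intro h
    have h1 := Q.assoc_one_sub hj'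
    rw [h, associated_zero_iff_eq_zero] at h1
    exact Q.lam_ne_zero h1
  have hcl : Q.conj C ^ l = w (-j) ^ l := by
    refine mul_left_cancel₀ hne ?_
    rw [← e2]
    exact hw (-j) hj'
  obtain ⟨v, hv⟩ := Q.assoc_one_sub hj
  obtain ⟨c, hc⟩ := Q.isUnit_one_add hj
  have e4 : (v : R) * η * (C ^ l - Q.conj C ^ l) = Q.lam ^ (N - l) * (u * c * V ^ l) := by
    refine mul_left_cancel₀ Q.lam_ne_zero ?_
    have hp : Q.lam ^ (N - l + 1) = Q.lam * Q.lam ^ (N - l) := pow_succ' _ _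
    rw [hp] at hAB
    linear_combination ((η : R) * (C ^ l - Q.conj C ^ l)) * hv - e1 + e3 + (1 + Q.e j) * hAB
      - Q.lam * Q.lam ^ (N - l) * u * V ^ l * hc
  have hlpos : 0 < l := by omega
  refine ⟨C, e1, ⟨?_, ?_, ha, ?_, ?_⟩⟩
  · have h1 := (hcop j (-j) hj hj' hj2).pow (m := l) (n := l)
    rw [← hCl, ← hcl] at h1
    exact (IsCoprime.pow_iff hlpos hlpos).1 h1
  · rw [hC]
    intro h
    exact hnd j hj ((Q.isUnit_e a).dvd_mul_left.1 h)
  · rw [Ideal.isCoprime_span_singleton_iff]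
    exact second1_coprime_lam Q hV
  · rw [Ideal.span_singleton_pow, Ideal.span_singleton_pow, Ideal.span_singleton_mul_span_singleton,
      Ideal.span_singleton_eq_span_singleton]
    refine ⟨v * η * u⁻¹ * c⁻¹, ?_⟩
    push_cast
    have hu : (u : R) * ↑u⁻¹ = 1 := u.mul_inv
    have hcc : (c : R) * ↑c⁻¹ = 1 := c.mul_inv
    linear_combination ((↑u⁻¹ : R) * ↑c⁻¹) * e4 + Q.lam ^ (N - l) * V ^ l * (c * ↑c⁻¹ * hu + hcc)

end AER
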