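import Pool.Agent.Lib_MP_aeefb1_pn.PFac
import Pool.Agent.Lib_MP_aeefb1_reg.Elem2

/-!
MP_aeefb1_nt, `p = l`: the common real unit.
-/

open Finset

namespace AER

variable {l : ℕ} [hlp : Fact l.Prime] {R : Type} [CommRing R] [IsDedekindDomain R]
  [CharZero R] [Module.Free ℤ R] [Module.Finite ℤ R]

/-- integers prime to `l` can be cancelled modulo `l` -/
private theorem punit_cancel {x : R} {m : ℤ} (hm : ¬ (l : ℤ) ∣ m) (h : (l : R) ∣ x * m) :
    (l : R) ∣ x := by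
  have hc : IsCoprime (l : ℤ) m :=
    (Nat.prime_iff_prime_int.mp hlp.out).coprime_iff_not_dvd.mpr hm
  obtain ⟨a, b, hab⟩ := hc
  have e : (a : R) * (l : R) + b * m = 1 := by exact_mod_cast congrArg (Int.cast : ℤ → R) hab
  have e2 : x = l * (x * a) + b * (x * m) := by linear_combination -x * e
  rw [e2]
  exact dvd_add (dvd_mul_right _ _) (h.mul_left _)

/-- Kummer's lemma for a unit which is a quotient of integers modulo `l` -/
private theorem punit_kummer (Q : Cyc l R) {v : Rˣ} {m n : ℤ} (hm : ¬ (l : ℤ) ∣ m)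
    (h : (l : R) ∣ (v : R) * m - n) : ∃ ω : Rˣ, v = ω ^ l := by
  have hc : IsCoprime (l : ℤ) m :=
    (Nat.prime_iff_prime_int.mp hlp.out).coprime_iff_not_dvd.mpr hm
  obtain ⟨a, b, hab⟩ := hc
  have e : (a : R) * (l : R) + b * m = 1 := by exact_mod_cast congrArg (Int.cast : ℤ → R) hab
  refine Q.kummer v (b * n) ?_
  have e2 : (v : R) - ((b * n : ℤ) : R) = l * (v * a) + b * ((v : R) * m - n) := by
    push_cast
    linear_combination -(v : R) * e
  rw [e2]
  exact dvd_add (dvd_mul_right _ _) (h.mul_left _)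

/-- A common real unit.
Proof (as `gh` in Lib_MP_aeefb1_reg/GH.lean).  `state_fac`; `A - z^t B = (1 - z^t) u_t V_t^l`.
`(A - z^t B)/(1 - z^t) = B + (A - B)/(1 - z^t) ≡ B` modulo `λ^(N - l)`, hence modulo `l` as
`N - l ≥ l - 1`.  `V_t^l ≡ m_t` modulo `l`, `m_t` an integer prime to `l` (`Q.pow_l_int`), so
`u_t m_t ≡ B`, so `u_t = u_1 ω_t^l` (`Q.kummer`), and `u_1 m_1 ≡ B ≡ conj B ≡ conj u_1 m_1`
gives `conj u_1 = u_1` (`Q.conj_unit`).  `η = u_1`, `w_t = ω_t V_t`. -/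
theorem common_unit (Q : Cyc l R) {A B : R} {N : ℕ} {J : Ideal R} (S : State Q A B N J)
    (hN : 2 * l - 1 ≤ N) (hB : (l : R) ∣ B - Q.conj B) :
    ∃ (η : Rˣ) (w : ZMod l → R), Q.conj (η : R) = η ∧
      (∀ t, t ≠ 0 → A - Q.e t * B = (1 - Q.e t) * η * w t ^ l) ∧
      (∀ t, t ≠ 0 → ¬ Q.lam ∣ w t) ∧
      (∀ t r, t ≠ 0 → r ≠ 0 → t ≠ r → IsCoprime (w t) (w r)) ∧
      ∃ (u : Rˣ) (V : R), A - B = Q.lam ^ (N - l + 1) * u * V ^ l ∧ ¬ Q.lam ∣ V := by
  have h5 := Q.five_le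
  obtain ⟨hN1, u, V, hV, hV0, hVl, hVc⟩ := state_fac Q S
  -- `A - B` is divisible by `λ ^ l`
  have hAB : Q.lam ^ l ∣ A - B := by
    rw [hV0, mul_assoc]
    exact (pow_dvd_pow Q.lam (by omega)).mul_right _
  -- `u_t V_t ^ l ≡ B` modulo `l`
  have huV : ∀ t : ZMod l, t ≠ 0 → (l : R) ∣ (u t : R) * V t ^ l - B := by
    intro t ht
    obtain ⟨ε, hε⟩ := Q.assoc_one_sub ht
    obtain ⟨c, hc⟩ := hAB
    have hne : (1 - Q.e t) ≠ 0 := by
      rw [← hε]
      exact mul_ne_zero Q.lam_ne_zero ε.ne_zero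
    have hpow : Q.lam ^ l = Q.lam * Q.lam ^ (l - 1) := by
      rw [← pow_succ']
      congr 1
      omega
    have hlam : Q.lam = (1 - Q.e t) * ((ε⁻¹ : Rˣ) : R) := by
      rw [← hε, mul_assoc, Units.mul_inv, mul_one]
    have h1 : (1 - Q.e t) * ((u t : R) * V t ^ l - B) =
        (1 - Q.e t) * (((ε⁻¹ : Rˣ) : R) * (Q.lam ^ (l - 1) * c)) := by
      have h2 := hV t ht
      have h3 : A - B = (1 - Q.e t) * ((ε⁻¹ : Rˣ) : R) * (Q.lam ^ (l - 1) * c) := by
        rw [← hlam, hc, hpow, mul_assoc]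
      linear_combination h3 - h2
    rw [mul_left_cancel₀ hne h1]
    exact (Q.l_dvd_lam_pow.mul_right _).mul_left _
  -- the integers `m_t`
  have hint : ∀ t : ZMod l, ∃ m : ℤ, (l : R) ∣ V t ^ l - m ∧ ¬ (l : ℤ) ∣ m := by
    intro t
    obtain ⟨m, hm, hm2⟩ := Q.pow_l_int (V t)
    refine ⟨m, hm, fun hlm => hVl t ?_⟩
    have e1 : V t = (V t - m) + m := by ring
    rw [e1]
    exact dvd_add hm2 (Q.lam_dvd_of_l_dvd hlm)
  choose m hm hml using hint
  have hum : ∀ t : ZMod l, t ≠ 0 → (l : R) ∣ (u t : R) * m t - B := by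
    intro t ht
    have e1 : (u t : R) * m t - B = ((u t : R) * V t ^ l - B) - u t * (V t ^ l - m t) := by ring
    rw [e1]
    exact dvd_sub (huV t ht) ((hm t).mul_left _)
  -- the unit `u_1` is real
  have hreal : Q.conj (u 1 : R) = u 1 := by
    apply Q.conj_unit
    refine punit_cancel (hml 1) ?_
    have h0 := hum 1 one_ne_zero
    have h1 : (l : R) ∣ Q.conj (u 1 : R) * m 1 - Q.conj B := by
      obtain ⟨t, ht⟩ := h0
      refine ⟨Q.conj t, ?_⟩
      have h2 := congrArg Q.conj ht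
      rw [map_sub, map_mul, map_mul, map_intCast, map_natCast] at h2
      exact h2
    have e1 : ((u 1 : R) - Q.conj (u 1)) * m 1 =
        ((u 1 : R) * m 1 - B) - (Q.conj (u 1 : R) * m 1 - Q.conj B) + (B - Q.conj B) := by ring
    rw [e1]
    exact dvd_add (dvd_sub h0 h1) hB
  -- the units `ω_t`
  have hω : ∀ t : ZMod l, ∃ ω : Rˣ, t ≠ 0 → u t = u 1 * ω ^ l := by
    intro t
    by_cases ht : t = 0
    · exact ⟨1, fun h => absurd ht h⟩
    · have hk : (l : R) ∣ (((u 1)⁻¹ * u t : Rˣ) : R) * (m t : R) - (m 1 : R) := by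
        rw [← (u 1).isUnit.dvd_mul_left]
        have e0 : (u 1 : R) * (((u 1)⁻¹ * u t : Rˣ) : R) = u t := by
          rw [Units.val_mul, ← mul_assoc, Units.mul_inv, one_mul]
        have e1 : (u 1 : R) * ((((u 1)⁻¹ * u t : Rˣ) : R) * (m t : R) - (m 1 : R)) =
            ((u t : R) * m t - B) - ((u 1 : R) * m 1 - B) := by
          linear_combination (m t : R) * e0
        rw [e1]
        exact dvd_sub (hum t ht) (hum 1 one_ne_zero)
      obtain ⟨ω, hω⟩ := punit_kummer Q (hml t) hk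
      refine ⟨ω, fun _ => ?_⟩
      rw [← hω, mul_inv_cancel_left]
  choose ω hω using hω
  refine ⟨u 1, fun t => (ω t : R) * V t, hreal, ?_, ?_, ?_, u 0, V 0, hV0, hVl 0⟩
  · intro t ht
    rw [hV t ht, hω t ht, Units.val_mul, Units.val_pow_eq_pow_val]
    ring
  · intro t _ h
    exact hVl t (((ω t).isUnit.dvd_mul_left).1 h)
  · intro t r _ _ htr
    exact (isCoprime_mul_unit_left_left (ω t).isUnit _ _).2
      ((isCoprime_mul_unit_left_right (ω r).isUnit _ _).2 (hVc t r htr))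

end AER
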